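import Mathlib

/-!
# Ergodicity of the golden automorphism of the two-torus
-/

set_option autoImplicit false

open Set Filter Topology MeasureTheory Function
open scoped ContDiff ENNReal Real NNReal symmDiff

namespace Pool.Agent.TH292.Gold

/-- the two-torus -/
abbrev T2 : Type := UnitAddCircle × UnitAddCircle

instance T1_prob : IsProbabilityMeasure (volume : Measure UnitAddCircle) :=
  ⟨UnitAddCircle.measure_univ⟩

instance T2_prob : IsProbabilityMeasure (volume : Measure T2) :=
  inferInstanceAs (IsProbabilityMeasure
    ((volume : Measure UnitAddCircle).prod (volume : Measure UnitAddCircle)))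

/-- An automorphism of a compact group with a dense set of contracted elements is preergodic. -/
theorem preErgodic_of_dense {G : Type*} [AddCommGroup G] [TopologicalSpace G]
    [IsTopologicalAddGroup G] [CompactSpace G] [T2Space G] [SecondCountableTopology G]
    [MeasurableSpace G] [BorelSpace G] (μ : Measure G) [IsFiniteMeasure μ] [μ.InnerRegular]
    [μ.IsAddHaarMeasure] (A : G →+ G) (hA : MeasurePreserving A μ μ)
    (hd : Dense {g : G | Tendsto (fun n => A^[n] g) atTop (𝓝 0)}) : PreErgodic A μ := by
  refine ⟨fun s hsm hs => ?_⟩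
  apply aeconst_of_dense_setOfPred_preimage_vadd_ae (M := G) hsm.nullMeasurableSet
  refine hd.mono fun g hg => ?_
  -- the translations by `A^[n] g` tend to the identity
  let τ : G → C(G, G) := fun g => ⟨fun x => g + x, by fun_prop⟩
  have hτ : Continuous τ := by
    apply ContinuousMap.continuous_of_continuous_uncurry
    show Continuous fun p : G × G => p.1 + p.2
    fun_prop
  have hτ0 : τ 0 = ContinuousMap.id G := by
    ext x
    show 0 + x = x
    rw [zero_add]
  have h1 : Tendsto (fun n => τ (A^[n] g)) atTop (𝓝 (ContinuousMap.id G)) := by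
    rw [← hτ0]
    exact (hτ.tendsto 0).comp hg
  have h2 := tendsto_measure_symmDiff_preimage_nhds_zero (μ := μ) (ν := μ) (s := s) h1
    (Eventually.of_forall fun n => measurePreserving_add_left μ _) (MeasurePreserving.id μ)
    hsm.nullMeasurableSet (measure_ne_top _ _)
  have hsn : ∀ n, A^[n] ⁻¹' s = s := fun n => by
    induction n with
    | zero => rfl
    | succ n ih => rw [iterate_succ, preimage_comp, ih, hs]
  have h3 : ∀ n, μ ((τ (A^[n] g) ⁻¹' s) ∆ (ContinuousMap.id G ⁻¹' s)) =
      μ (((g +ᵥ ·) ⁻¹' s) ∆ s) := by
    intro n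
    have hn := (hA.iterate n).measure_preimage (s := (τ (A^[n] g) ⁻¹' s) ∆ (ContinuousMap.id G ⁻¹' s))
      (((τ (A^[n] g)).continuous.measurable hsm).symmDiff hsm).nullMeasurableSet
    rw [← hn, preimage_symmDiff]
    congr 2
    · ext x
      show A^[n] g + A^[n] x ∈ s ↔ g + x ∈ s
      have : A^[n] g + A^[n] x = A^[n] (g + x) := (iterate_map_add A n g x).symm
      rw [this]
      show (g + x) ∈ A^[n] ⁻¹' s ↔ _
      rw [hsn]
    · exact hsn n
  simp only [h3] at h2
  have h4 : μ (((g +ᵥ ·) ⁻¹' s) ∆ s) = 0 := tendsto_nhds_unique tendsto_const_nhds h2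
  exact measure_symmDiff_eq_zero_iff.mp h4

/-! ### The golden automorphism -/

/-- the base map -/
def AT (x : T2) : T2 := (x.1 + x.2, x.1)

/-- the inverse of the base map -/
def AI (x : T2) : T2 := (x.2, x.1 - x.2)

lemma AT_AI (x : T2) : AT (AI x) = x := by
  unfold AT AI
  ext
  · simp
  · rfl

lemma AI_AT (x : T2) : AI (AT x) = x := by
  unfold AT AI
  ext
  · rfl
  · simp

/-- the base map as a homomorphism -/
def AH : T2 →+ T2 where
  toFun := AT
  map_zero' := by unfold AT; simp
  map_add' x y := by
    unfold AT
    ext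
    · simp only [Prod.fst_add, Prod.snd_add]; abel
    · simp

lemma AT_cont : Continuous AT := by unfold AT; fun_prop
lemma AI_cont : Continuous AI := by unfold AI; fun_prop

/-- the base map as a measurable equivalence -/
def AE : T2 ≃ᵐ T2 where
  toFun := AT
  invFun := AI
  left_inv := AI_AT
  right_inv := AT_AI
  measurable_toFun := AT_cont.measurable
  measurable_invFun := AI_cont.measurable

lemma mp_AT : MeasurePreserving AT (volume : Measure T2) volume := by
  have : Measure.IsAddHaarMeasure (volume : Measure T2) :=
    inferInstanceAs (Measure.IsAddHaarMeasure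
      ((volume : Measure UnitAddCircle).prod (volume : Measure UnitAddCircle)))
  exact AddMonoidHom.measurePreserving (f := AH) AT_cont (fun x => ⟨AI x, AT_AI x⟩) rfl

lemma mp_AI : MeasurePreserving AI (volume : Measure T2) volume :=
  MeasurePreserving.symm AE mp_AT

/-- contracted elements -/
lemma contr (t : ℝ) (n : ℕ) : AT^[n] (((t * Real.goldenConj : ℝ) : UnitAddCircle), (t : UnitAddCircle)) =
    (((Real.goldenConj ^ n * (t * Real.goldenConj) : ℝ) : UnitAddCircle),
      ((Real.goldenConj ^ n * t : ℝ) : UnitAddCircle)) := by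
  induction n with
  | zero => simp
  | succ n ih =>
    rw [iterate_succ_apply', ih]
    unfold AT
    have h : Real.goldenConj * Real.goldenConj = Real.goldenConj + 1 := by
      have := Real.goldenConj_sq
      rw [sq] at this
      exact this
    ext
    · simp only
      rw [← AddCircle.coe_add]
      congr 1
      rw [pow_succ]
      linear_combination -(Real.goldenConj ^ n * t) * h
    · simp only
      congr 1
      rw [pow_succ]
      ring

lemma dense_contr : Dense {g : T2 | Tendsto (fun n => AT^[n] g) atTop (𝓝 0)} := by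
  have hsub : range (fun t : ℝ => (((t * Real.goldenConj : ℝ) : UnitAddCircle), (t : UnitAddCircle))) ⊆
      {g : T2 | Tendsto (fun n => AT^[n] g) atTop (𝓝 0)} := by
    rintro _ ⟨t, rfl⟩
    show Tendsto _ _ _
    simp only [contr]
    have h0 : Tendsto (fun n : ℕ => Real.goldenConj ^ n) atTop (𝓝 0) := by
      apply tendsto_pow_atTop_nhds_zero_of_abs_lt_one
      rw [abs_of_neg Real.goldenConj_neg]
      linarith [Real.neg_one_lt_goldenConj]
    have h1 : Tendsto (fun n : ℕ => Real.goldenConj ^ n * (t * Real.goldenConj)) atTop (𝓝 0) := by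
      simpa using h0.mul_const (t * Real.goldenConj)
    have h2 : Tendsto (fun n : ℕ => Real.goldenConj ^ n * t) atTop (𝓝 0) := by
      simpa using h0.mul_const t
    have hc : Continuous fun x : ℝ => (x : UnitAddCircle) := AddCircle.continuous_mk' 1
    exact ((hc.tendsto 0).comp h1).prodMk_nhds ((hc.tendsto 0).comp h2)
  apply Dense.mono hsub
  rintro ⟨a, b⟩
  obtain ⟨b, rfl⟩ := QuotientAddGroup.mk_surjective b
  have hd : DenseRange (· • (Real.goldenConj : UnitAddCircle) : ℤ → UnitAddCircle) := by
    apply AddCircle.denseRange_zsmul_coe_iff.mpr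
    rw [div_one]
    exact Real.goldenConj_irrational
  have h1 := hd (a - ((b * Real.goldenConj : ℝ) : UnitAddCircle))
  have h2 : Continuous fun c : UnitAddCircle => ((c + ((b * Real.goldenConj : ℝ) : UnitAddCircle), (b : UnitAddCircle)) : T2) := by
    fun_prop
  have h3 := map_mem_closure h2 h1 (t := range (fun t : ℝ => (((t * Real.goldenConj : ℝ) : UnitAddCircle), (t : UnitAddCircle))))
    (by
      rintro _ ⟨n, rfl⟩
      refine ⟨b + n, ?_⟩
      ext
      · simp only
        rw [← AddCircle.coe_zsmul, ← AddCircle.coe_add]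
        congr 1
        rw [zsmul_eq_mul]
        ring
      · simp only
        rw [AddCircle.coe_add]
        have : ((n : ℝ) : UnitAddCircle) = 0 := by
          rw [AddCircle.coe_eq_zero_iff]
          exact ⟨n, by simp⟩
        rw [this, add_zero])
  simpa using h3

theorem ergodic_AT : Ergodic AT (volume : Measure T2) := by
  have : Measure.IsAddHaarMeasure (volume : Measure T2) :=
    inferInstanceAs (Measure.IsAddHaarMeasure
      ((volume : Measure UnitAddCircle).prod (volume : Measure UnitAddCircle)))
  exact ⟨mp_AT, (preErgodic_of_dense volume AH mp_AT dense_contr)⟩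

theorem ergodic_AI : Ergodic AI (volume : Measure T2) := by
  refine ⟨mp_AI, ⟨fun s hs hs' => ?_⟩⟩
  apply ergodic_AT.toPreErgodic.aeconst_set hs
  conv_rhs => rw [← show AT ⁻¹' (AI ⁻¹' s) = s from by
    rw [← preimage_comp]
    have : AI ∘ AT = id := funext AI_AT
    rw [this, preimage_id]]
  rw [hs']

end Pool.Agent.TH292.Gold
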