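import Pool.Agent.TH292.PH.Bundle
import Pool.Agent.TH292.PH.Erg

/-!
# The attracting set; dissipativity
-/

set_option autoImplicit false

open Set Filter Topology MeasureTheory Function
open scoped ContDiff ENNReal Real NNReal

namespace Pool.Agent.TH292.PH

open Pool.Agent.TH292.Gold

lemma exists_lift (c : UnitAddCircle) : ∃ y : ℝ, (y : UnitAddCircle) = c ∧ |y| = ‖c‖ := by
  obtain ⟨x, rfl⟩ := QuotientAddGroup.mk_surjective c
  refine ⟨x - round x, ?_, ?_⟩
  · exact (coe_eq_iff _ _).mpr ⟨round x, by ring⟩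
  · exact UnitAddCircle.norm_eq.symm

lemma norm_coe_le (y : ℝ) : ‖(y : UnitAddCircle)‖ ≤ |y| := by
  rw [UnitAddCircle.norm_eq]
  have := round_le y 0
  simpa using this

lemma norm_coe_eq {y : ℝ} (h : |y| < 1 / 2) : ‖(y : UnitAddCircle)‖ = |y| := by
  rw [UnitAddCircle.norm_eq]
  have : round y = 0 := by
    rw [round_eq_zero_iff]
    rw [abs_lt] at h
    exact ⟨by linarith, by linarith⟩
  rw [this]
  simp

/-- closed trapping region -/
def K0 : Set Torus3 := {w | ‖w.2‖ ≤ 1 / 3}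
/-- open trapping region -/
def U0 : Set Torus3 := {w | ‖w.2‖ < 1 / 3}

lemma K0_closed : IsClosed K0 := isClosed_le (by fun_prop) (by fun_prop)
lemma U0_open : IsOpen U0 := isOpen_lt (by fun_prop) (by fun_prop)
lemma U0_sub : U0 ⊆ K0 := by
  intro w h
  have h' : ‖w.2‖ < 1 / 3 := h
  exact h'.le

lemma ff_K0 : ff '' K0 ⊆ U0 := by
  rintro _ ⟨w, hw, rfl⟩
  obtain ⟨⟨a, b⟩, c⟩ := w
  obtain ⟨a, rfl⟩ := QuotientAddGroup.mk_surjective a
  obtain ⟨b, rfl⟩ := QuotientAddGroup.mk_surjective b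
  obtain ⟨y, rfl, hy⟩ := exists_lift c
  have h1 : |y| ≤ 1 / 3 := by rw [hy]; exact hw
  have h2 := third_fib a y h1
  have h3 := ff_proj ((a, b), y)
  show ‖(ff (proj ((a, b), y))).2‖ < 1 / 3
  rw [h3]
  exact lt_of_le_of_lt (norm_coe_le _) h2

/-- the attracting set -/
def Lam : Set Torus3 := ⋂ n : ℕ, ff^[n] '' K0

lemma iter_image (n : ℕ) (S : Set Torus3) : ff^[n + 1] '' S = ff^[n] '' (ff '' S) := by
  rw [iterate_succ, image_comp]

lemma iter_image' (n : ℕ) (S : Set Torus3) : ff^[n + 1] '' S = ff '' (ff^[n] '' S) := by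
  rw [iterate_succ', image_comp]

lemma ff_Lam : ff '' Lam = Lam := by
  unfold Lam
  rw [image_iInter ff.bijective]
  simp only [← iter_image']
  apply subset_antisymm
  · intro x hx
    rw [mem_iInter] at hx ⊢
    intro n
    have h := hx n
    rw [iter_image] at h
    exact image_mono (ff_K0.trans U0_sub) h
  · intro x hx
    rw [mem_iInter] at hx ⊢
    intro n
    exact hx (n + 1)

lemma Lam_eq : Lam = ⋂ n : ℕ, ff^[n] '' U0 := by
  apply subset_antisymm
  · intro x hx
    rw [mem_iInter]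
    intro n
    have h := mem_iInter.mp hx (n + 1)
    rw [iter_image] at h
    exact image_mono ff_K0 h
  · exact iInter_mono fun n => image_mono U0_sub

lemma Lam_compact : IsCompact Lam := by
  have h1 : IsCompact K0 := K0_closed.isCompact
  apply IsClosed.isCompact
  apply isClosed_iInter
  intro n
  exact (h1.image (ff.continuous.iterate n)).isClosed

lemma Lam_sub : Lam ⊆ U0 := by
  rw [Lam_eq]
  intro x hx
  have := mem_iInter.mp hx 0
  simpa using this

/-- the invariant torus -/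
def io (x : UnitAddCircle × UnitAddCircle) : Torus3 := (x, 0)

lemma ff_io (x : UnitAddCircle × UnitAddCircle) : ff (io x) = io (AT x) := by
  obtain ⟨⟨a, b⟩, rfl⟩ : ∃ z : ℝ × ℝ, ((z.1 : UnitAddCircle), (z.2 : UnitAddCircle)) = x := by
    obtain ⟨a, b⟩ := x
    obtain ⟨a, rfl⟩ := QuotientAddGroup.mk_surjective a
    obtain ⟨b, rfl⟩ := QuotientAddGroup.mk_surjective b
    exact ⟨(a, b), rfl⟩
  have h := ff_proj ((a, b), 0)
  have h1 : FF ((a, b), 0) = ((a + b, a), 0) := by
    unfold FF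
    simp only [gg_zero, add_zero]
  rw [h1] at h
  exact h

lemma ff_symm_io (x : UnitAddCircle × UnitAddCircle) : ff.symm (io x) = io (AI x) := by
  rw [Homeomorph.symm_apply_eq, ff_io, AT_AI]

lemma io_mem_U0 (x : UnitAddCircle × UnitAddCircle) : io x ∈ U0 := by
  show ‖(0 : UnitAddCircle)‖ < 1 / 3
  rw [norm_zero]
  norm_num

lemma iter_io (n : ℕ) (x : UnitAddCircle × UnitAddCircle) : ff^[n] (io x) = io (AT^[n] x) := by
  induction n with
  | zero => rfl
  | succ n ih => rw [iterate_succ_apply', iterate_succ_apply', ih, ff_io]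

lemma iter_symm_io (n : ℕ) (x : UnitAddCircle × UnitAddCircle) :
    ff.symm^[n] (io x) = io (AI^[n] x) := by
  induction n with
  | zero => rfl
  | succ n ih => rw [iterate_succ_apply', iterate_succ_apply', ih, ff_symm_io]

lemma AT_AI_iter (n : ℕ) (x : UnitAddCircle × UnitAddCircle) : AT^[n] (AI^[n] x) = x := by
  have h : LeftInverse AT AI := AT_AI
  exact h.iterate n x

lemma io_mem (x : UnitAddCircle × UnitAddCircle) : io x ∈ Lam := by
  unfold Lam
  rw [mem_iInter]
  intro n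
  exact ⟨io (AI^[n] x), U0_sub (io_mem_U0 _), by rw [iter_io, AT_AI_iter]⟩

theorem isAttractingSet : IsAttractingSet ff Lam := by
  refine ⟨⟨io 0, io_mem 0⟩, Lam_compact, ff_Lam, U0, U0_open, Lam_sub, ?_, Lam_eq⟩
  exact (image_mono (closure_minimal U0_sub K0_closed)).trans ff_K0

lemma exists_pt : ∃ w, w ∈ U0 ∧ w ∉ ff '' K0 := by
  have h1 : Continuous fun y => y + gg 0 y :=
    continuous_iff_continuousAt.mpr fun y => (gg_deriv 0 y).continuousAt
  have h2 : ∀ᶠ y in 𝓝 (1 / 3 : ℝ), y + gg 0 y < 1 / 3 := by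
    apply h1.continuousAt.eventually_lt continuousAt_const
    have := gg_third 0
    show 1 / 3 + gg 0 (1 / 3) < 1 / 3
    linarith
  have h3 : ∀ᶠ y in 𝓝[>] (1 / 3 : ℝ), y + gg 0 y < 1 / 3 := nhdsWithin_le_nhds h2
  have h4 : ∀ᶠ y in 𝓝[>] (1 / 3 : ℝ), y ∈ Ioo (1 / 3 : ℝ) (1 / 2) :=
    Ioo_mem_nhdsGT (by norm_num)
  obtain ⟨y, hy1, hy2, hy3⟩ := (h3.and h4).exists
  refine ⟨ff (proj ((0, 0), y)), ?_, ?_⟩
  · rw [ff_proj]
    have h5 : 0 + gg 0 0 ≤ y + gg 0 y := (fib_strictMono 0).monotone (by linarith)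
    rw [gg_zero, zero_add] at h5
    refine lt_of_le_of_lt (norm_coe_le _) ?_
    show |y + gg 0 y| < 1 / 3
    rwa [abs_of_nonneg h5]
  · rw [ff.injective.mem_set_image]
    intro h
    have h6 : ‖(y : UnitAddCircle)‖ ≤ 1 / 3 := h
    rw [norm_coe_eq (by rw [abs_of_pos (by linarith)]; exact hy3), abs_of_pos (by linarith)] at h6
    linarith

theorem isDissipative : IsDissipative ff := by
  intro ν hν h1 h2 h3
  have hK : MeasurableSet K0 := K0_closed.measurableSet
  have hfK : IsClosed (ff '' K0) := (K0_closed.isCompact.image ff.continuous).isClosed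
  have e1 : ν K0 = ν (ff '' K0) := by
    have := h3.measure_preimage hfK.measurableSet.nullMeasurableSet
    rwa [preimage_image_eq _ ff.injective] at this
  have e2 : ν U0 ≤ ν (ff '' K0) := by
    rw [← e1]
    exact measure_mono U0_sub
  have e3 : ν (U0 \ ff '' K0) = 0 := by
    rw [measure_sdiff ff_K0 hfK.measurableSet.nullMeasurableSet (measure_ne_top _ _)]
    exact tsub_eq_zero_of_le e2
  have e4 : (volume : Measure Torus3) (U0 \ ff '' K0) = 0 := h2 e3
  have e5 : IsOpen (U0 \ ff '' K0) := U0_open.sdiff hfK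
  obtain ⟨w, hw1, hw2⟩ := exists_pt
  exact (e5.measure_pos volume ⟨w, hw1, hw2⟩).ne' e4

end Pool.Agent.TH292.PH
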