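import Pool.Agent.TH292.PH.Map

/-!
# The stable and the center-unstable bundle
-/

set_option autoImplicit false

open Set Filter Topology MeasureTheory Function
open scoped ContDiff ENNReal Real NNReal

namespace Pool.Agent.TH292.PH

/-- the unstable eigenvalue of the base map -/
noncomputable abbrev φ : ℝ := Real.goldenRatio
/-- the stable eigenvalue of the base map -/
noncomputable abbrev ψ : ℝ := Real.goldenConj

lemma sqrt5_lt : √5 < 2.24 := by
  rw [Real.sqrt_lt' (by norm_num)]; norm_num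
lemma lt_sqrt5 : 2.23 < √5 := by
  rw [Real.lt_sqrt (by norm_num)]; norm_num

lemma φ_def : φ = (1 + √5) / 2 := rfl
lemma ψ_def : ψ = (1 - √5) / 2 := rfl

lemma abs_ψ : |ψ| < 62 / 100 := by
  have h := ψ_def
  rw [abs_of_neg Real.goldenConj_neg]
  have := sqrt5_lt
  linarith

lemma φ_lt : φ < 1.62 := by
  rw [φ_def]
  have := sqrt5_lt
  linarith

lemma lt_φ : 1.615 < φ := by
  rw [φ_def]
  have := lt_sqrt5
  linarith

lemma φ_sq : φ * φ = φ + 1 := by
  have := Real.goldenRatio_sq
  rw [sq] at this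
  exact this
lemma ψ_sq : ψ * ψ = ψ + 1 := by
  have := Real.goldenConj_sq
  rw [sq] at this
  exact this

lemma ψ_ne : ψ ≠ 0 := Real.goldenConj_ne_zero

/-! ### Derivatives of the iterates -/

lemma iter_proj (n : ℕ) (z : Space) : ff^[n] (proj z) = proj (FF^[n] z) := by
  induction n with
  | zero => rfl
  | succ n ih => rw [iterate_succ_apply', iterate_succ_apply', ih, ff_proj]

lemma FF_diff : Differentiable ℝ FF := FF_contDiff.differentiable (by simp)

lemma fderiv_succ (n : ℕ) (z : Space) :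
    fderiv ℝ (FF^[n + 1]) z =
      (LL (hT (ff^[n] (proj z))) (dT (ff^[n] (proj z)))).comp (fderiv ℝ (FF^[n]) z) := by
  rw [iterate_succ', fderiv_comp z (FF_diff _) ((FF_diff.iterate n) z), FF_fderiv, iter_proj]
  rfl

lemma fderiv_zero (z : Space) : fderiv ℝ (FF^[0]) z = ContinuousLinearMap.id ℝ Space := by
  rw [iterate_zero]
  exact fderiv_id

lemma dT_ge (w : Torus3) : 31 / 50 ≤ dT w := by
  obtain ⟨z, rfl⟩ := proj_surj w
  exact dd_ge _ _

/-! ### The stable bundle -/

/-- graph transform -/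
noncomputable def Tr (a : C(Torus3, ℝ)) : C(Torus3, ℝ) :=
  ⟨fun w => ψ * (a (ff w) - hT w) / dT w, by
    have h1 := dT_cont
    have h2 := hT_cont
    have h3 := a.continuous
    have h4 := ff.continuous
    refine Continuous.div (by fun_prop) h1 fun w => ?_
    have := dT_ge w
    linarith⟩

/-- contraction rate -/
noncomputable def KK : ℝ≥0 := ⟨|ψ| / (31 / 50), by positivity⟩

lemma Tr_contr : ContractingWith KK Tr := by
  constructor
  · rw [← NNReal.coe_lt_coe]
    show |ψ| / (31 / 50) < 1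
    have := abs_ψ
    rw [div_lt_one (by norm_num)]
    linarith
  · apply LipschitzWith.of_dist_le_mul
    intro a b
    rw [ContinuousMap.dist_le (by positivity)]
    intro w
    show dist (ψ * (a (ff w) - hT w) / dT w) (ψ * (b (ff w) - hT w) / dT w) ≤ |ψ| / (31 / 50) * dist a b
    have h1 : dist (a (ff w)) (b (ff w)) ≤ dist a b := ContinuousMap.dist_apply_le_dist _
    have h2 := dT_ge w
    have h3 : 0 < dT w := by linarith
    rw [Real.dist_eq] at h1 ⊢
    have e : ψ * (a (ff w) - hT w) / dT w - ψ * (b (ff w) - hT w) / dT w =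
        ψ * (a (ff w) - b (ff w)) / dT w := by ring
    rw [e, abs_div, abs_mul, abs_of_pos h3, div_le_iff₀ h3]
    calc |ψ| * |a (ff w) - b (ff w)| ≤ |ψ| * dist a b := by gcongr
      _ = |ψ| / (31 / 50) * dist a b * (31 / 50) := by ring
      _ ≤ |ψ| / (31 / 50) * dist a b * dT w := by gcongr

/-- slope of the stable bundle -/
noncomputable def aS : C(Torus3, ℝ) := ContractingWith.fixedPoint Tr Tr_contr

lemma aS_eq (w : Torus3) : hT w * ψ + dT w * aS w = ψ * aS (ff w) := by
  have h : Tr aS = aS := Tr_contr.fixedPoint_isFixedPt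
  have h1 : ψ * (aS (ff w) - hT w) / dT w = aS w := congrArg (fun a : C(Torus3, ℝ) => a w) h
  have h2 := dT_ge w
  have h3 : dT w ≠ 0 := by linarith
  rw [← h1]
  field_simp
  ring

/-- the stable vector field -/
noncomputable def es (w : Torus3) : Space := ((ψ, 1), aS w)

/-- the stable bundle -/
noncomputable def Es (w : Torus3) : Submodule ℝ Space := Submodule.span ℝ {es w}

lemma LL_es (w : Torus3) : LL (hT w) (dT w) (es w) = ψ • es (ff w) := by
  rw [LL_apply]
  unfold es
  ext
  · simp only [Prod.smul_mk, smul_eq_mul]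
    rw [ψ_sq]
  · simp
  · simp only [Prod.smul_mk, smul_eq_mul]
    exact aS_eq w

lemma iter_es (n : ℕ) (z : Space) :
    fderiv ℝ (FF^[n]) z (es (proj z)) = ψ ^ n • es (ff^[n] (proj z)) := by
  induction n with
  | zero =>
    rw [fderiv_zero]
    simp
  | succ n ih =>
    rw [fderiv_succ, ContinuousLinearMap.comp_apply, ih, map_smul, LL_es, smul_smul,
      iterate_succ_apply', pow_succ]

lemma es_cont : Continuous es := by
  unfold es
  have := aS.continuous
  fun_prop

lemma es_ne (w : Torus3) : es w ≠ 0 := by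
  intro h
  have : (1 : ℝ) = 0 := congrArg (fun v : Space => v.1.2) h
  exact one_ne_zero this

lemma norm_es_le : ∃ M : ℝ, 0 < M ∧ ∀ w, ‖es w‖ ≤ M := by
  refine ⟨‖aS‖ + 1, by positivity, fun w => ?_⟩
  unfold es
  rw [Prod.norm_mk, Prod.norm_mk]
  have h1 : ‖ψ‖ ≤ 1 := by rw [Real.norm_eq_abs]; have := abs_ψ; linarith
  have h2 : ‖aS w‖ ≤ ‖aS‖ := ContinuousMap.norm_coe_le_norm _ _
  have h3 : 0 ≤ ‖aS‖ := norm_nonneg _
  refine max_le (max_le (by linarith) (by simp)) (by linarith)

/-! ### The center-unstable bundle -/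

/-- the linear form vanishing on the center-unstable bundle -/
noncomputable def cuForm : Space →ₗ[ℝ] ℝ where
  toFun v := v.1.1 - φ * v.1.2
  map_add' v w := by simp; ring
  map_smul' c v := by simp; ring

/-- the center-unstable subspace -/
noncomputable def Ecu : Submodule ℝ Space := LinearMap.ker cuForm

lemma mem_Ecu (v : Space) : v ∈ Ecu ↔ v.1.1 = φ * v.1.2 := by
  unfold Ecu
  rw [LinearMap.mem_ker]
  show v.1.1 - φ * v.1.2 = 0 ↔ _
  exact sub_eq_zero

/-- the unstable vector of the base -/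
noncomputable def eu : Space := ((φ, 1), 0)
/-- the vertical vector -/
noncomputable def ev : Space := ((0, 0), 1)

lemma eq_comb {v : Space} (hv : v ∈ Ecu) : v = v.1.2 • eu + v.2 • ev := by
  rw [mem_Ecu] at hv
  unfold eu ev
  ext
  · simp [hv, mul_comm]
  · simp
  · simp

lemma comb_mem (a b : ℝ) : a • eu + b • ev ∈ Ecu := by
  rw [mem_Ecu]
  unfold eu ev
  simp [mul_comm]

lemma eu_ev_indep : LinearIndependent ℝ ![eu, ev] := by
  rw [LinearIndependent.pair_iff]
  intro a b h
  have h1 := congrArg (fun v : Space => v.1.2) h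
  have h2 := congrArg (fun v : Space => v.2) h
  simp [eu, ev] at h1 h2
  exact ⟨h1, h2⟩

lemma span_eu_ev : Submodule.span ℝ {eu, ev} = Ecu := by
  apply le_antisymm
  · rw [Submodule.span_le]
    rintro v (rfl | rfl)
    · have := comb_mem 1 0
      simpa using this
    · have := comb_mem 0 1
      simpa using this
  · intro v hv
    rw [Submodule.mem_span_pair]
    exact ⟨v.1.2, v.2, (eq_comb hv).symm⟩

lemma finrank_Ecu : Module.finrank ℝ Ecu = 2 := by
  rw [← span_eu_ev]
  have h := finrank_span_eq_card eu_ev_indep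
  rw [Matrix.range_cons, Matrix.range_cons, Matrix.range_empty, union_empty, Fintype.card_fin] at h
  exact h

lemma LL_mem {h d : ℝ} {v : Space} (hv : v ∈ Ecu) : LL h d v ∈ Ecu := by
  rw [mem_Ecu] at hv ⊢
  rw [LL_apply]
  simp only
  rw [hv]
  linear_combination -v.1.2 * φ_sq

lemma map_Ecu (h d : ℝ) (hd : d ≠ 0) : Ecu.map (LL h d : Space →ₗ[ℝ] Space) = Ecu := by
  apply le_antisymm
  · rintro _ ⟨v, hv, rfl⟩
    exact LL_mem hv
  · intro w hw
    rw [mem_Ecu] at hw
    refine ⟨((w.1.2, w.1.1 - w.1.2), d⁻¹ * (w.2 - h * w.1.2)), ?_, ?_⟩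
    · show _ ∈ Ecu
      rw [mem_Ecu]
      simp only
      rw [hw]
      linear_combination -w.1.2 * φ_sq
    · show LL h d _ = w
      rw [LL_apply]
      ext
      · simp
      · simp
      · simp only
        field_simp
        ring

lemma hT_bdd : ∃ H : ℝ, 0 < H ∧ ∀ w, |hT w| ≤ H := by
  obtain ⟨C, hC⟩ := isCompact_univ.exists_bound_of_continuousOn hT_cont.continuousOn
  exact ⟨|C| + 1, by positivity, fun w => by
    have := hC w (mem_univ w)
    rw [Real.norm_eq_abs] at this
    have := le_abs_self C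
    linarith⟩

/-- bound of the mixed derivative -/
noncomputable def HB : ℝ := Classical.choose hT_bdd
lemma HB_pos : 0 < HB := (Classical.choose_spec hT_bdd).1
lemma hT_le (w : Torus3) : |hT w| ≤ HB := (Classical.choose_spec hT_bdd).2 w

/-- weight of the adapted norm -/
noncomputable def KW : ℝ := 2 * HB

/-- the adapted norm on the center-unstable bundle -/
noncomputable def NN (v : Space) : ℝ := |v.2| + KW * |v.1.2|

lemma NN_step {v : Space} (hv : v ∈ Ecu) (w : Torus3) :
    31 / 50 * NN v ≤ NN (LL (hT w) (dT w) v) := by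
  rw [mem_Ecu] at hv
  rw [LL_apply]
  unfold NN KW
  simp only
  rw [hv]
  have h1 := hT_le w
  have h2 := dT_ge w
  have h3 := HB_pos
  have h4 := lt_φ
  have h5 := φ_lt
  have e1 : |hT w * (φ * v.1.2)| ≤ HB * (φ * |v.1.2|) := by
    rw [abs_mul, abs_mul, abs_of_pos (by linarith : 0 < φ)]
    gcongr
  have e2 : 31 / 50 * |v.2| ≤ |dT w * v.2| := by
    rw [abs_mul, abs_of_pos (by linarith : 0 < dT w)]
    gcongr
  have e3 : |dT w * v.2| ≤ |hT w * (φ * v.1.2) + dT w * v.2| + |hT w * (φ * v.1.2)| := by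
    have := abs_sub (hT w * (φ * v.1.2) + dT w * v.2) (hT w * (φ * v.1.2))
    rwa [add_sub_cancel_left] at this
  have e4 : |φ * v.1.2| = φ * |v.1.2| := by
    rw [abs_mul, abs_of_pos (by linarith : 0 < φ)]
  rw [e4]
  have h6 := abs_nonneg v.1.2
  have h7 : 0 ≤ HB * |v.1.2| := by positivity
  nlinarith

lemma iter_mem {v : Space} (hv : v ∈ Ecu) (n : ℕ) (z : Space) : fderiv ℝ (FF^[n]) z v ∈ Ecu := by
  induction n with
  | zero => rw [fderiv_zero]; exact hv
  | succ n ih => rw [fderiv_succ]; exact LL_mem ih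

lemma NN_iter {v : Space} (hv : v ∈ Ecu) (n : ℕ) (z : Space) :
    (31 / 50) ^ n * NN v ≤ NN (fderiv ℝ (FF^[n]) z v) := by
  induction n with
  | zero => rw [fderiv_zero]; simp
  | succ n ih =>
    rw [fderiv_succ, ContinuousLinearMap.comp_apply]
    refine le_trans ?_ (NN_step (iter_mem hv n z) _)
    rw [pow_succ]
    nlinarith

lemma NN_le (v : Space) : NN v ≤ (1 + KW) * ‖v‖ := by
  unfold NN
  have h1 : |v.2| ≤ ‖v‖ := by
    rw [← Real.norm_eq_abs]; exact norm_snd_le v
  have h2 : |v.1.2| ≤ ‖v‖ := by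
    rw [← Real.norm_eq_abs]; exact (norm_snd_le v.1).trans (norm_fst_le v)
  have h3 : 0 < KW := by have := HB_pos; unfold KW; linarith
  nlinarith

lemma le_NN : ∃ c : ℝ, 0 < c ∧ ∀ v ∈ Ecu, ‖v‖ ≤ c * NN v := by
  have h3 : 0 < KW := by have := HB_pos; unfold KW; linarith
  refine ⟨1 + 2 / KW, by positivity, fun v hv => ?_⟩
  rw [mem_Ecu] at hv
  have h4 := lt_φ
  have h5 := φ_lt
  have e : (1 + 2 / KW) * NN v = |v.2| + KW * |v.1.2| + 2 / KW * |v.2| + 2 * |v.1.2| := by
    unfold NN
    field_simp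
    ring
  rw [e, Prod.norm_def, Prod.norm_def]
  have p1 := abs_nonneg v.2
  have p2 := abs_nonneg v.1.2
  have p3 : 0 ≤ KW * |v.1.2| := by positivity
  have p4 : 0 ≤ 2 / KW * |v.2| := by positivity
  have e1 : ‖v.1.1‖ = φ * |v.1.2| := by
    rw [hv, Real.norm_eq_abs, abs_mul, abs_of_pos (by linarith : 0 < φ)]
  refine max_le (max_le ?_ ?_) ?_
  · rw [e1]; nlinarith
  · rw [Real.norm_eq_abs]; linarith
  · rw [Real.norm_eq_abs]; linarith

/-! ### The splitting -/

lemma es_not_mem (w : Torus3) : es w ∉ Ecu := by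
  rw [mem_Ecu]
  intro h
  have h1 : ψ = φ * 1 := h
  have h2 := Real.goldenConj_neg
  have h3 := lt_φ
  linarith

lemma Es_bundle (Λ : Set Torus3) : IsContinuousBundle Λ Es := by
  intro x _
  refine ⟨1, fun _ => es, fun _ => es_cont.continuousWithinAt, Eventually.of_forall fun y => ?_⟩
  constructor
  · rw [linearIndependent_unique_iff]
    exact es_ne y
  · rw [range_const]
    rfl

lemma Ecu_bundle (Λ : Set Torus3) : IsContinuousBundle Λ fun _ => Ecu := by
  intro x _
  refine ⟨2, fun i _ => ![eu, ev] i, fun i => continuousWithinAt_const,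
    Eventually.of_forall fun y => ?_⟩
  constructor
  · exact eu_ev_indep
  · show Submodule.span ℝ (range ![eu, ev]) = Ecu
    rw [Matrix.range_cons, Matrix.range_cons, Matrix.range_empty, union_empty]
    exact span_eu_ev

theorem splitting (Λ : Set Torus3) : IsSplitting ff FF Λ (fun _ => ⊤) Es fun _ => Ecu where
  continuous_left := Es_bundle Λ
  continuous_right := Ecu_bundle Λ
  ne_bot_left x _ := by
    unfold Es
    rw [Ne, Submodule.span_singleton_eq_bot]
    exact es_ne x
  ne_bot_right x _ := by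
    intro h
    have := finrank_Ecu
    rw [h] at this
    simp at this
  disjoint x _ := by
    unfold Es
    rw [disjoint_comm, Submodule.disjoint_span_singleton' (es_ne x)]
    exact es_not_mem x
  sup x _ := by
    rw [eq_top_iff]
    intro v _
    rw [Submodule.mem_sup]
    have h5 : φ - ψ ≠ 0 := by
      have h2 := Real.goldenConj_neg
      have h3 := lt_φ
      intro h
      linarith
    set c := (φ * v.1.2 - v.1.1) / (φ - ψ) with hc
    refine ⟨c • es x, Submodule.smul_mem _ _ (Submodule.mem_span_singleton_self _), v - c • es x, ?_,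
      by abel⟩
    rw [mem_Ecu]
    unfold es
    simp only [Prod.fst_sub, Prod.snd_sub, Prod.smul_fst, Prod.smul_snd, smul_eq_mul, mul_one]
    rw [hc]
    field_simp
    ring
  inv_left z _ := by
    unfold Es
    rw [Submodule.map_span, image_singleton]
    have h : (fderiv ℝ FF z : Space →ₗ[ℝ] Space) (es (proj z)) = ψ • es (ff (proj z)) := by
      show fderiv ℝ FF z (es (proj z)) = _
      rw [FF_fderiv, ← LL_es]
      rfl
    rw [h]
    exact Submodule.span_singleton_smul_eq (IsUnit.mk0 _ ψ_ne) _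
  inv_right z _ := by
    rw [FF_fderiv]
    exact map_Ecu _ _ (dd_ne _ _)

theorem hasStableAndCenterUnstable (Λ : Set Torus3) :
    HasStableAndCenterUnstable ff FF Λ Es fun _ => Ecu := by
  refine ⟨splitting Λ, ?_⟩
  obtain ⟨M, hM, hes⟩ := norm_es_le
  obtain ⟨c, hc, hcN⟩ := le_NN
  have h3 : 0 < KW := by have := HB_pos; unfold KW; linarith
  have hψ := abs_ψ
  have hψ0 : 0 < |ψ| := abs_pos.mpr ψ_ne
  set lam : ℝ := |ψ| / (31 / 50) with hlam
  have hlam0 : 0 < lam := by positivity
  have hlam1 : lam < 1 := by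
    rw [hlam, div_lt_one (by norm_num)]
    linarith
  refine ⟨max M (M * (c * (1 + KW))), lam, by positivity, hlam0, hlam1, ?_⟩
  intro z _ n v hv w hw hv1 hw1
  -- growth of the stable vector
  obtain ⟨t, rfl⟩ := Submodule.mem_span_singleton.mp hv
  have ht : |t| ≤ 1 := by
    rw [← hv1, norm_smul, Real.norm_eq_abs]
    have h1 : (1 : ℝ) ≤ ‖es (proj z)‖ := by
      have h2 : ‖(es (proj z)).1.2‖ ≤ ‖es (proj z)‖ := (norm_snd_le _).trans (norm_fst_le _)
      have h4 : ‖(es (proj z)).1.2‖ = 1 := by unfold es; simp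
      rwa [h4] at h2
    have := abs_nonneg t
    nlinarith
  have hs : ‖fderiv ℝ (FF^[n]) z (t • es (proj z))‖ ≤ M * |ψ| ^ n := by
    rw [map_smul, iter_es, norm_smul, norm_smul, norm_pow, Real.norm_eq_abs, Real.norm_eq_abs]
    have h1 := hes (ff^[n] (proj z))
    calc |t| * (|ψ| ^ n * ‖es (ff^[n] (proj z))‖) ≤ 1 * (|ψ| ^ n * M) := by gcongr
      _ = M * |ψ| ^ n := by ring
  -- growth of the center-unstable vector
  have hu : 1 ≤ c * (1 + KW) * ((31 / 50)⁻¹ ^ n * ‖fderiv ℝ (FF^[n]) z w‖) := by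
    have h1 := NN_iter hw n z
    have h2 := NN_le (fderiv ℝ (FF^[n]) z w)
    have h4 := hcN w hw
    rw [hw1] at h4
    have h5 : (0 : ℝ) < (31 / 50) ^ n := by positivity
    have h6 : (31 / 50 : ℝ)⁻¹ ^ n * (31 / 50) ^ n = 1 := by
      rw [← mul_pow]; norm_num
    have h7 : NN w ≤ (31 / 50 : ℝ)⁻¹ ^ n * ((1 + KW) * ‖fderiv ℝ (FF^[n]) z w‖) := by
      calc NN w = (31 / 50 : ℝ)⁻¹ ^ n * ((31 / 50) ^ n * NN w) := by rw [← mul_assoc, h6, one_mul]
        _ ≤ (31 / 50 : ℝ)⁻¹ ^ n * ((1 + KW) * ‖fderiv ℝ (FF^[n]) z w‖) := by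
          exact mul_le_mul_of_nonneg_left (h1.trans h2) (by positivity)
    calc (1 : ℝ) ≤ c * NN w := h4
      _ ≤ c * ((31 / 50 : ℝ)⁻¹ ^ n * ((1 + KW) * ‖fderiv ℝ (FF^[n]) z w‖)) := by gcongr
      _ = _ := by ring
  have hlamn : lam ^ n = |ψ| ^ n * (31 / 50)⁻¹ ^ n := by
    rw [hlam, div_eq_mul_inv, mul_pow]
  constructor
  · refine hs.trans ?_
    have h1 : |ψ| ^ n ≤ lam ^ n := by
      apply pow_le_pow_left₀ hψ0.le
      rw [hlam, le_div_iff₀ (by norm_num)]
      nlinarith
    have h2 : M ≤ max M (M * (c * (1 + KW))) := le_max_left _ _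
    calc M * |ψ| ^ n ≤ M * lam ^ n := by gcongr
      _ ≤ _ := by gcongr
  · refine hs.trans ?_
    have h2 : M * (c * (1 + KW)) ≤ max M (M * (c * (1 + KW))) := le_max_right _ _
    calc M * |ψ| ^ n = M * |ψ| ^ n * 1 := by ring
      _ ≤ M * |ψ| ^ n * (c * (1 + KW) * ((31 / 50)⁻¹ ^ n * ‖fderiv ℝ (FF^[n]) z w‖)) := by gcongr
      _ = M * (c * (1 + KW)) * lam ^ n * ‖fderiv ℝ (FF^[n]) z w‖ := by
        rw [hlamn]; ring
      _ ≤ _ := by gcongr

end Pool.Agent.TH292.PH
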