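import Pool.Agent.TH292.PH.Unst

/-!
# Conditional measures along the unstable manifolds
-/

set_option autoImplicit false

open Set Filter Topology MeasureTheory Function ProbabilityTheory
open scoped ContDiff ENNReal Real NNReal

namespace Pool.Agent.TH292.PH

open Pool.Agent.TH292.Gold

/-- the representative in `[0, 1)` -/
noncomputable def rep (c : UnitAddCircle) : ℝ := (AddCircle.measurableEquivIco 1 0 c : ℝ)

lemma rep_meas : Measurable rep :=
  measurable_subtype_coe.comp (AddCircle.measurableEquivIco 1 0).measurable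

lemma rep_mem (c : UnitAddCircle) : rep c ∈ Ico (0 : ℝ) 1 := by
  have h := (AddCircle.measurableEquivIco 1 0 c).2
  have h2 := h.2
  simp only [zero_add] at h2
  exact ⟨h.1, h2⟩

lemma coe_rep (c : UnitAddCircle) : (rep c : UnitAddCircle) = c :=
  (AddCircle.equivIco 1 0).symm_apply_apply c

lemma rep_coe {t : ℝ} (h0 : 0 ≤ t) (h1 : t < 1) : rep (t : UnitAddCircle) = t := by
  have h := rep_mem (t : UnitAddCircle)
  apply eq_of_coe_eq (coe_rep _)
  rw [abs_lt]
  constructor <;> linarith [h.1, h.2]

lemma rep_pos {c : UnitAddCircle} (hc : c ≠ 0) : 0 < rep c := by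
  rcases (rep_mem c).1.lt_or_eq with h | h
  · exact h
  · exfalso
    apply hc
    rw [← coe_rep c, ← h]
    rfl

lemma coe_ne_zero {t : ℝ} (h0 : 0 < t) (h1 : t < 1) : (t : UnitAddCircle) ≠ 0 := by
  intro h
  have h2 : (t : UnitAddCircle) = ((0 : ℝ) : UnitAddCircle) := h
  have := eq_of_coe_eq h2 (by rw [abs_lt]; constructor <;> linarith)
  linarith

/-- the index set of the measurable partition -/
abbrev ZZ : Type := (UnitAddCircle × UnitAddCircle) × Bool

open Classical in
/-- the measurable partition -/
noncomputable def qq (w : Torus3) : ZZ :=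
  ((((φ * rep w.1.2 : ℝ) : UnitAddCircle) - w.1.1, w.2), if w.1.2 = 0 then true else false)

lemma coe_meas : Measurable fun x : ℝ => (x : UnitAddCircle) := (AddCircle.continuous_mk' 1).measurable

lemma qq_meas : Measurable qq := by
  unfold qq
  have h1 : Measurable fun w : Torus3 => rep w.1.2 := rep_meas.comp (by fun_prop)
  have h2 : Measurable fun w : Torus3 => ((φ * rep w.1.2 : ℝ) : UnitAddCircle) :=
    coe_meas.comp (h1.const_mul φ)
  refine ((h2.sub (by fun_prop)).prodMk (by fun_prop)).prodMk ?_
  apply Measurable.ite _ measurable_const measurable_const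
  have : Measurable fun w : Torus3 => w.1.2 := by fun_prop
  exact this (measurableSet_singleton 0)

/-- Lebesgue measure on the unit interval -/
noncomputable def rho : Measure ℝ := volume.restrict (Ioo 0 1)

instance : IsProbabilityMeasure rho := by
  constructor
  unfold rho
  simp

/-- parametrisation of the partition elements -/
noncomputable def Phi (p : ZZ × ℝ) : Torus3 :=
  ((((φ * p.2 : ℝ) : UnitAddCircle) - p.1.1.1, (p.2 : UnitAddCircle)), p.1.1.2)

lemma Phi_meas : Measurable Phi := by
  unfold Phi
  have h2 : Measurable fun p : ZZ × ℝ => ((φ * p.2 : ℝ) : UnitAddCircle) :=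
    coe_meas.comp (measurable_snd.const_mul φ)
  have h3 : Measurable fun p : ZZ × ℝ => (p.2 : UnitAddCircle) := coe_meas.comp measurable_snd
  exact ((h2.sub (by fun_prop)).prodMk h3).prodMk (by fun_prop)

/-- the conditional measures -/
noncomputable def KK' : Kernel ZZ Torus3 := (Kernel.id ×ₖ Kernel.const ZZ rho).map Phi

instance : IsMarkovKernel KK' := by
  unfold KK'
  exact Kernel.IsMarkovKernel.map _ Phi_meas

lemma KK'_apply (z : ZZ) : KK' z = rho.map fun t => Phi (z, t) := by
  unfold KK'
  ext s hs
  have hmm : Measurable fun t => Phi (z, t) := Phi_meas.comp measurable_prodMk_left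
  rw [Kernel.map_apply' _ Phi_meas _ hs, Kernel.prod_apply, Kernel.id_apply, Kernel.const_apply,
    Measure.dirac_prod, Measure.map_apply measurable_prodMk_left (Phi_meas hs),
    Measure.map_apply hmm hs]
  rfl

lemma rho_map : rho.map (fun t : ℝ => (t : UnitAddCircle)) = (volume : Measure UnitAddCircle) := by
  have h := (AddCircle.measurePreserving_mk 1 0).map_eq
  rw [zero_add] at h
  unfold rho
  rw [restrict_Ioo_eq_restrict_Ioc]
  exact h

lemma disint_aux (I : Torus3 → ℝ≥0∞) (hI : Measurable I) :
    ∫⁻ x : T2, (∫⁻ t, I ((x.1 + (((φ * t - φ * rep x.2 : ℝ)) : UnitAddCircle),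
      (t : UnitAddCircle)), (0 : UnitAddCircle)) ∂rho) = ∫⁻ x : T2, I (io x) := by
  have hm1 : Measurable fun p : T2 × ℝ => I
      ((p.1.1 + (((φ * p.2 - φ * rep p.1.2 : ℝ)) : UnitAddCircle), (p.2 : UnitAddCircle)),
        (0 : UnitAddCircle)) := by
    apply hI.comp
    have h2 : Measurable fun p : T2 × ℝ => ((φ * p.2 - φ * rep p.1.2 : ℝ) : UnitAddCircle) :=
      coe_meas.comp ((measurable_snd.const_mul φ).sub ((rep_meas.comp (by fun_prop)).const_mul φ))
    have h3 : Measurable fun p : T2 × ℝ => (p.2 : UnitAddCircle) := coe_meas.comp measurable_snd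
    exact (((measurable_fst.comp measurable_fst).add h2).prodMk h3).prodMk measurable_const
  have e0 : (volume : Measure T2) = (volume : Measure UnitAddCircle).prod volume := rfl
  rw [e0, lintegral_prod_symm _ (Measurable.lintegral_prod_right' hm1).aemeasurable]
  have h2 : ∀ x2 : UnitAddCircle, ∫⁻ x1 : UnitAddCircle, (∫⁻ t, I
      ((x1 + (((φ * t - φ * rep x2 : ℝ)) : UnitAddCircle), (t : UnitAddCircle)), (0 : UnitAddCircle)) ∂rho) =
      ∫⁻ t, (∫⁻ x1 : UnitAddCircle, I ((x1, (t : UnitAddCircle)), (0 : UnitAddCircle))) ∂rho := by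
    intro x2
    rw [lintegral_lintegral_swap]
    · apply lintegral_congr
      intro t
      exact lintegral_add_right_eq_self (fun x1 : UnitAddCircle => I
        ((x1, (t : UnitAddCircle)), (0 : UnitAddCircle))) _
    · exact (hm1.comp (((measurable_fst).prodMk measurable_const).prodMk measurable_snd :
        Measurable fun p : UnitAddCircle × ℝ => (((p.1, x2) : T2), p.2))).aemeasurable
  simp only [h2]
  rw [lintegral_const, measure_univ, mul_one]
  have hm2 : Measurable fun p : T2 => I (io p) := hI.comp io_cont.measurable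
  have hm3 : Measurable fun c : UnitAddCircle => ∫⁻ x1 : UnitAddCircle, I ((x1, c), (0 : UnitAddCircle)) :=
    Measurable.lintegral_prod_left' hm2
  have h4 : ∫⁻ t, (∫⁻ x1 : UnitAddCircle, I ((x1, (t : UnitAddCircle)), (0 : UnitAddCircle))) ∂rho =
      ∫⁻ c : UnitAddCircle, ∫⁻ x1 : UnitAddCircle, I ((x1, c), (0 : UnitAddCircle)) := by
    rw [← rho_map, lintegral_map _ coe_meas]
    exact rho_map ▸ hm3
  rw [h4, lintegral_prod_symm _ hm2.aemeasurable]
  rfl

lemma disint : (mu.map qq).bind KK' = mu := by
  classical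
  ext B hB
  rw [Measure.bind_apply hB KK'.measurable.aemeasurable, lintegral_map (KK'.measurable_coe hB) qq_meas]
  unfold mu
  have hKm : Measurable fun w => KK' (qq w) B := (KK'.measurable_coe hB).comp qq_meas
  rw [lintegral_map hKm io_cont.measurable, Measure.map_apply io_cont.measurable hB]
  -- the integrand
  have hind : Measurable (B.indicator (1 : Torus3 → ℝ≥0∞)) := measurable_one.indicator hB
  have h1 : ∀ x : T2, KK' (qq (io x)) B = ∫⁻ t, B.indicator (1 : Torus3 → ℝ≥0∞)
      ((x.1 + (((φ * t - φ * rep x.2 : ℝ)) : UnitAddCircle), (t : UnitAddCircle)), (0 : UnitAddCircle)) ∂rho := by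
    intro x
    have hmm : Measurable fun t => Phi (qq (io x), t) := Phi_meas.comp measurable_prodMk_left
    rw [KK'_apply, Measure.map_apply hmm hB, ← lintegral_indicator_one (hmm hB)]
    apply lintegral_congr
    intro t
    have e : Phi (qq (io x), t) = ((x.1 + (((φ * t - φ * rep x.2 : ℝ)) : UnitAddCircle),
        (t : UnitAddCircle)), (0 : UnitAddCircle)) := by
      unfold Phi qq io
      ext
      · simp only
        rw [AddCircle.coe_sub]
        abel
      · rfl
      · rfl
    rw [← e]
    rfl
  simp only [h1]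
  rw [disint_aux _ hind, ← lintegral_indicator_one (io_cont.measurable hB)]
  rfl

lemma ul_inj : Injective ul := by
  intro s t h
  have h1 : ((φ * s : ℝ) : UnitAddCircle) = ((φ * t : ℝ) : UnitAddCircle) := congrArg Prod.fst h
  have h2 : (s : UnitAddCircle) = (t : UnitAddCircle) := congrArg Prod.snd h
  obtain ⟨m, hm⟩ := (coe_eq_iff _ _).mp h1
  obtain ⟨n, hn⟩ := (coe_eq_iff _ _).mp h2
  rw [hn] at hm ⊢
  have h3 : φ * n = m := by linarith
  have h4 : n = 0 := by
    by_contra hne
    have h5 : Irrational (φ * n) := Real.goldenRatio_irrational.mul_intCast hne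
    exact h5 ⟨m, by rw [h3]; simp⟩
  rw [h4]
  simp

lemma gam_deriv (a b t : ℝ) : HasDerivAt (gam a b) ((φ, 1), 0) t := by
  unfold gam
  have h1 : HasDerivAt (fun t : ℝ => a + φ * t) φ t := by
    simpa using ((hasDerivAt_id t).const_mul φ).const_add a
  have h2 : HasDerivAt (fun t : ℝ => b + t) 1 t := (hasDerivAt_id t).const_add b
  exact (h1.prodMk h2).prodMk (hasDerivAt_const t 0)

lemma gam_contDiff (a b : ℝ) : ContDiff ℝ ∞ (gam a b) := by
  unfold gam
  fun_prop

lemma qq_io {x : T2} (hx : x.2 ≠ 0) :
    qq (io x) = ((((φ * rep x.2 : ℝ) : UnitAddCircle) - x.1, 0), false) := by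
  unfold qq io
  simp [hx]

lemma fibre_eq {a : ℝ} {x2 : UnitAddCircle} (hx : x2 ≠ 0) :
    qq ⁻¹' {qq (io ((a : UnitAddCircle), x2))} =
      (fun t => proj (gam a (rep x2) t)) '' Ioo (-rep x2) (1 - rep x2) := by
  have hq := qq_io (x := ((a : UnitAddCircle), x2)) hx
  have hrm := rep_mem x2
  have hrp := rep_pos hx
  ext w
  rw [mem_preimage, mem_singleton_iff, hq]
  constructor
  · intro h
    have h1 : ((φ * rep w.1.2 : ℝ) : UnitAddCircle) - w.1.1 = ((φ * rep x2 : ℝ) : UnitAddCircle) - (a : UnitAddCircle) :=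
      congrArg (fun p : ZZ => p.1.1) h
    have h2 : w.2 = 0 := congrArg (fun p : ZZ => p.1.2) h
    have h3 : (if w.1.2 = 0 then true else false) = false := congrArg (fun p : ZZ => p.2) h
    have h4 : w.1.2 ≠ 0 := by
      intro h5
      rw [if_pos h5] at h3
      exact Bool.noConfusion h3
    have h5 := rep_pos h4
    have h6 := (rep_mem w.1.2).2
    refine ⟨rep w.1.2 - rep x2, ⟨by linarith, by linarith⟩, ?_⟩
    show proj (gam a (rep x2) (rep w.1.2 - rep x2)) = w
    unfold gam proj
    ext
    · simp only
      rw [mul_sub, AddCircle.coe_add, AddCircle.coe_sub]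
      have : w.1.1 = ((φ * rep w.1.2 : ℝ) : UnitAddCircle) - (((φ * rep x2 : ℝ) : UnitAddCircle) - (a : UnitAddCircle)) := by
        rw [← h1]; abel
      rw [this]
      abel
    · simp only
      rw [add_sub_cancel, coe_rep]
    · rw [h2]
      rfl
  · rintro ⟨t, ⟨ht0, ht1⟩, rfl⟩
    have h5 : rep ((rep x2 + t : ℝ) : UnitAddCircle) = rep x2 + t :=
      rep_coe (by linarith) (by linarith)
    have h6 : ((rep x2 + t : ℝ) : UnitAddCircle) ≠ 0 := coe_ne_zero (by linarith) (by linarith)
    show qq (proj (gam a (rep x2) t)) = _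
    unfold qq gam proj
    ext
    · simp only
      rw [h5, ← AddCircle.coe_sub, ← AddCircle.coe_sub]
      congr 1
      ring
    · rfl
    · simp only
      rw [if_neg h6]

lemma KK'_eq {a : ℝ} {x2 : UnitAddCircle} (hx : x2 ≠ 0) :
    KK' (qq (io ((a : UnitAddCircle), x2))) =
      (volume.restrict (Ioo (-rep x2) (1 - rep x2))).map (fun t => proj (gam a (rep x2) t)) := by
  rw [KK'_apply, qq_io (x := ((a : UnitAddCircle), x2)) hx]
  have h1 : (fun t : ℝ => Phi (((((φ * rep x2 : ℝ) : UnitAddCircle) - (a : UnitAddCircle), (0 : UnitAddCircle)), false), t)) =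
      (fun t => proj (gam a (rep x2) t)) ∘ fun t => t - rep x2 := by
    funext t
    show _ = proj (gam a (rep x2) (t - rep x2))
    unfold Phi gam proj
    ext
    · simp only
      rw [← AddCircle.coe_sub, ← AddCircle.coe_sub]
      congr 1
      ring
    · simp only
      rw [add_sub_cancel]
    · rfl
  have h2 : rho.map (fun t => t - rep x2) = volume.restrict (Ioo (-rep x2) (1 - rep x2)) := by
    unfold rho
    have h3 := ((measurePreserving_sub_right (volume : Measure ℝ) (rep x2)).restrict_preimage
      (measurableSet_Ioo (a := -rep x2) (b := 1 - rep x2))).map_eq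
    have h4 : (fun t => t - rep x2) ⁻¹' Ioo (-rep x2) (1 - rep x2) = Ioo 0 1 := by
      ext t
      simp only [mem_preimage, mem_Ioo]
      constructor
      · rintro ⟨h5, h6⟩
        exact ⟨by linarith, by linarith⟩
      · rintro ⟨h5, h6⟩
        exact ⟨by linarith, by linarith⟩
    rw [h4] at h3
    exact h3
  have hmeas : Measurable fun t => proj (gam a (rep x2) t) :=
    (proj_cont.comp (gam_contDiff _ _).continuous).measurable
  rw [h1, ← Measure.map_map hmeas (measurable_sub_const _), h2]

lemma snd_ne_ae : ∀ᵐ x : T2, x.2 ≠ 0 := by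
  have h1 : (volume : Measure UnitAddCircle) {0} = 0 := by
    rw [← rho_map, Measure.map_apply coe_meas (measurableSet_singleton _)]
    unfold rho
    rw [Measure.restrict_apply (coe_meas (measurableSet_singleton _))]
    have : (fun x : ℝ => (x : UnitAddCircle)) ⁻¹' {0} ∩ Ioo 0 1 = ∅ := by
      ext t
      simp only [mem_inter_iff, mem_preimage, mem_singleton_iff, mem_Ioo, mem_empty_iff_false,
        iff_false, not_and]
      intro h h0 h2
      exact coe_ne_zero h0 h2 h
    rw [this, measure_empty]
  have h2 : MeasurePreserving (Prod.snd : T2 → UnitAddCircle) volume volume := measurePreserving_snd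
  have h3 := h2.measure_preimage (measurableSet_singleton (0 : UnitAddCircle)).nullMeasurableSet
  rw [h1] at h3
  rw [ae_iff]
  have h4 : {a : T2 | ¬ a.2 ≠ 0} = Prod.snd ⁻¹' {0} := by
    ext a
    simp
  rw [h4]
  exact h3

theorem hasACConditionals : HasACConditionals ff mu := by
  refine ⟨ZZ, inferInstance, inferInstance, qq, KK', qq_meas, inferInstance, disint, ?_⟩
  have hmu : mu = (volume : Measure T2).map io := rfl
  rw [hmu, io_emb.ae_map_iff]
  filter_upwards [birk_AI, snd_ne_ae] with x hx hx2
  obtain ⟨x1, x2⟩ := x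
  obtain ⟨a, rfl⟩ := QuotientAddGroup.mk_surjective x1
  have hx2' : x2 ≠ 0 := hx2
  have hrep := coe_rep x2
  have hrm := rep_mem x2
  have hrp := rep_pos hx2'
  constructor
  · have h1 := KK'_eq (a := a) hx2'
    have h2 := fibre_eq (a := a) hx2'
    change KK' (qq (io ((a : UnitAddCircle), x2))) (qq ⁻¹' {qq (io ((a : UnitAddCircle), x2))})ᶜ = 0
    have hmeas : Measurable fun t => proj (gam a (rep x2) t) :=
      (proj_cont.comp (gam_contDiff _ _).continuous).measurable
    have hms : MeasurableSet (qq ⁻¹' {qq (io ((a : UnitAddCircle), x2))})ᶜ :=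
      (qq_meas (measurableSet_singleton _)).compl
    rw [h1, Measure.map_apply hmeas hms, h2, Measure.restrict_apply]
    · convert measure_empty (μ := (volume : Measure ℝ))
      ext t
      simp only [mem_inter_iff, mem_preimage, mem_compl_iff, mem_empty_iff_false, iff_false, not_and]
      intro h ht
      exact h ⟨t, ht, rfl⟩
    · rw [← h2]
      exact hmeas hms
  · refine ⟨gam a (rep x2), -rep x2, 1 - rep x2, gam_contDiff _ _, ?_, ?_, ?_, ?_, by linarith,
      by linarith [hrm.2], ?_, ?_⟩
    · intro t h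
      rw [(gam_deriv a (rep x2) t).deriv] at h
      have : (1 : ℝ) = 0 := congrArg (fun v : Space => v.1.2) h
      exact one_ne_zero this
    · intro s t h
      simp only [proj_gam] at h
      exact ul_inj (add_left_cancel (io_inj h))
    · rw [proj_gam, hrep]
      have : ul 0 = 0 := by unfold ul; simp
      rw [this, add_zero]
    · have h1 := unstable_eq (a := a) (b := rep x2) (by rw [hrep]; exact hx)
      rw [hrep] at h1
      exact h1
    · exact fibre_eq hx2'
    · exact (KK'_eq (a := a) hx2') ▸ Measure.AbsolutelyContinuous.rfl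

end Pool.Agent.TH292.PH
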