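import Mathlib

/-!
# Partially hyperbolic attractors on the three-torus: definitions

Everything is stated for the flat torus `𝕋³ = ℝ³/ℤ³`. Diffeomorphisms are described through their
lifts to the universal cover `ℝ³`, which is also the tangent space at every point. We use the
maximum norm on `ℝ³`; none of the notions below changes if it is replaced by another norm.
-/

set_option autoImplicit false

open Set Filter Topology MeasureTheory Function
open scoped ContDiff ENNReal

namespace Pool.Agent.TH292.PH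

/-- The three-torus `ℝ³/ℤ³`. Its `volume` is Lebesgue (Haar) measure, which is the normalised
Riemannian volume. -/
abbrev Torus3 : Type := (UnitAddCircle × UnitAddCircle) × UnitAddCircle

/-- The universal cover of the three-torus, which is also its tangent space at every point. -/
abbrev Space : Type := (ℝ × ℝ) × ℝ

/-- The covering map `ℝ³ → ℝ³/ℤ³`. -/
def proj (z : Space) : Torus3 := (((z.1.1 : UnitAddCircle), (z.1.2 : UnitAddCircle)), (z.2 : UnitAddCircle))

/-- `f` is a `C^∞` diffeomorphism of the torus: `F` and `G` are `C^∞` lifts of `f` and `f⁻¹`. The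
derivative of `fⁿ` at `proj z` is that of `Fⁿ` at `z`. -/
structure IsSmoothDiffeo (f : Torus3 ≃ₜ Torus3) (F G : Space → Space) : Prop where
  lift : ∀ z, f (proj z) = proj (F z)
  lift_symm : ∀ z, f.symm (proj z) = proj (G z)
  smooth : ContDiff ℝ ∞ F
  smooth_symm : ContDiff ℝ ∞ G

/-- `f` is dissipative: it preserves no finite measure equivalent to Lebesgue measure. -/
def IsDissipative (f : Torus3 ≃ₜ Torus3) : Prop :=
  ∀ ν : Measure Torus3, IsFiniteMeasure ν → ν ≪ volume → (volume : Measure Torus3) ≪ ν →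
    ¬ MeasurePreserving f ν ν

/-- `Λ` is a compact invariant attracting set: there is an open neighbourhood `U` of `Λ` with
`f (closure U) ⊆ U` and `Λ = ⋂ₙ fⁿ(U)`. -/
def IsAttractingSet (f : Torus3 ≃ₜ Torus3) (Λ : Set Torus3) : Prop :=
  Λ.Nonempty ∧ IsCompact Λ ∧ f '' Λ = Λ ∧
    ∃ U : Set Torus3, IsOpen U ∧ Λ ⊆ U ∧ f '' closure U ⊆ U ∧ Λ = ⋂ n : ℕ, f^[n] '' U

/-- The subspaces `E y`, `y ∈ Λ`, form a continuous subbundle of the tangent bundle over `Λ`: near
each point of `Λ` there is a frame of `E` which is continuous at that point. -/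
def IsContinuousBundle (Λ : Set Torus3) (E : Torus3 → Submodule ℝ Space) : Prop :=
  ∀ x ∈ Λ, ∃ (k : ℕ) (v : Fin k → Torus3 → Space), (∀ i, ContinuousWithinAt (v i) Λ x) ∧
    ∀ᶠ y in 𝓝[Λ] x, LinearIndependent ℝ (fun i => v i y) ∧
      Submodule.span ℝ (range fun i => v i y) = E y

/-- `B = E ⊕ E'` is a continuous `Df`-invariant splitting over `Λ` into nontrivial subbundles. -/
structure IsSplitting (f : Torus3 ≃ₜ Torus3) (F : Space → Space) (Λ : Set Torus3)
    (B E E' : Torus3 → Submodule ℝ Space) : Prop where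
  continuous_left : IsContinuousBundle Λ E
  continuous_right : IsContinuousBundle Λ E'
  ne_bot_left : ∀ x ∈ Λ, E x ≠ ⊥
  ne_bot_right : ∀ x ∈ Λ, E' x ≠ ⊥
  disjoint : ∀ x ∈ Λ, Disjoint (E x) (E' x)
  sup : ∀ x ∈ Λ, E x ⊔ E' x = B x
  inv_left : ∀ z, proj z ∈ Λ →
    (E (proj z)).map (fderiv ℝ F z : Space →ₗ[ℝ] Space) = E (f (proj z))
  inv_right : ∀ z, proj z ∈ Λ →
    (E' (proj z)).map (fderiv ℝ F z : Space →ₗ[ℝ] Space) = E' (f (proj z))

/-- `E'` dominates `E` over `Λ`: `‖Dfⁿ v‖ ≤ C lamⁿ ‖Dfⁿ w‖` for all `n ≥ 0` and all unit vectors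
`v ∈ E`, `w ∈ E'` at the same point of `Λ`. -/
def Dominates (F : Space → Space) (Λ : Set Torus3) (E E' : Torus3 → Submodule ℝ Space) : Prop :=
  ∃ C lam : ℝ, 0 < C ∧ 0 < lam ∧ lam < 1 ∧ ∀ z, proj z ∈ Λ → ∀ n : ℕ,
    ∀ v ∈ E (proj z), ∀ w ∈ E' (proj z), ‖v‖ = 1 → ‖w‖ = 1 →
      ‖fderiv ℝ (F^[n]) z v‖ ≤ C * lam ^ n * ‖fderiv ℝ (F^[n]) z w‖

/-- `f` has a stable bundle `Es` and a center-unstable bundle `Ecu` over `Λ`. -/
def HasStableAndCenterUnstable (f : Torus3 ≃ₜ Torus3) (F : Space → Space) (Λ : Set Torus3)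
    (Es Ecu : Torus3 → Submodule ℝ Space) : Prop :=
  IsSplitting f F Λ (fun _ => ⊤) Es Ecu ∧
    ∃ C lam : ℝ, 0 < C ∧ 0 < lam ∧ lam < 1 ∧ ∀ z, proj z ∈ Λ → ∀ n : ℕ,
      ∀ v ∈ Es (proj z), ∀ w ∈ Ecu (proj z), ‖v‖ = 1 → ‖w‖ = 1 →
        ‖fderiv ℝ (F^[n]) z v‖ ≤ C * lam ^ n ∧
        ‖fderiv ℝ (F^[n]) z v‖ ≤ C * lam ^ n * ‖fderiv ℝ (F^[n]) z w‖

/-- The bundle `B` has a dominated subsplitting over `Λ`. -/
def HasDominatedSubsplitting (f : Torus3 ≃ₜ Torus3) (F : Space → Space) (Λ : Set Torus3)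
    (B : Torus3 → Submodule ℝ Space) : Prop :=
  ∃ E₁ E₂ : Torus3 → Submodule ℝ Space, IsSplitting f F Λ B E₁ E₂ ∧ Dominates F Λ E₁ E₂

/-- The two Lyapunov exponents of `μ` along the two-dimensional bundle `B` are `χp` and `χm`: at
`μ`-almost every point `B` has a basis `v, w` with `lim (1/n) log ‖Dfⁿ v‖ = χp` and
`lim (1/n) log ‖Dfⁿ w‖ = χm`. -/
def HasExponentsAlong (F : Space → Space) (μ : Measure Torus3) (B : Torus3 → Submodule ℝ Space)
    (χp χm : ℝ) : Prop :=
  ∀ᵐ x ∂μ, ∀ z, proj z = x → ∃ v w : Space, LinearIndependent ℝ ![v, w] ∧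
    Submodule.span ℝ {v, w} = B x ∧
    Tendsto (fun n : ℕ => (1 / (n : ℝ)) * Real.log ‖fderiv ℝ (F^[n]) z v‖) atTop (𝓝 χp) ∧
    Tendsto (fun n : ℕ => (1 / (n : ℝ)) * Real.log ‖fderiv ℝ (F^[n]) z w‖) atTop (𝓝 χm)

/-- The unstable manifold (as a set) of `x`: the points `y` such that the distance of `f⁻ⁿ x` and
`f⁻ⁿ y` tends to zero exponentially fast. -/
def unstableSet (f : Torus3 ≃ₜ Torus3) (x : Torus3) : Set Torus3 :=
  {y | ∃ C θ : ℝ, 0 < θ ∧ θ < 1 ∧ ∀ n : ℕ, dist (f.symm^[n] x) (f.symm^[n] y) ≤ C * θ ^ n}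

/-- At `μ`-almost every point the unstable manifold is an injectively immersed `C^∞` curve, and `μ`
has absolutely continuous conditional measures along unstable manifolds: there are a measurable
partition, namely the partition into the fibres of a measurable map `q` to a standard Borel space
`Z`, and a system `K` of conditional probability measures of `μ` on the fibres, such that for
`μ`-almost every `x` there is an injectively immersed `C^∞` curve `γ` through `x = γ 0` whose range
is the unstable manifold of `x`, the fibre of `x` is the arc `γ (a, b)` for some `a < 0 < b`, and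
the conditional measure on it is absolutely continuous with respect to arc length (equivalently,
with respect to the image under `γ` of Lebesgue measure on `(a, b)`). -/
def HasACConditionals (f : Torus3 ≃ₜ Torus3) (μ : Measure Torus3) : Prop :=
  ∃ (Z : Type) (_ : MeasurableSpace Z) (_ : StandardBorelSpace Z) (q : Torus3 → Z)
    (K : ProbabilityTheory.Kernel Z Torus3),
    Measurable q ∧ ProbabilityTheory.IsMarkovKernel K ∧ (μ.map q).bind K = μ ∧
    ∀ᵐ x ∂μ, K (q x) (q ⁻¹' {q x})ᶜ = 0 ∧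
      ∃ (γ : ℝ → Space) (a b : ℝ), ContDiff ℝ ∞ γ ∧ (∀ t, deriv γ t ≠ 0) ∧
        Injective (fun t => proj (γ t)) ∧ proj (γ 0) = x ∧
        range (fun t => proj (γ t)) = unstableSet f x ∧ a < 0 ∧ 0 < b ∧
        q ⁻¹' {q x} = (fun t => proj (γ t)) '' Ioo a b ∧
        K (q x) ≪ (volume.restrict (Ioo a b)).map (fun t => proj (γ t))

/-- `μ` is an SRB measure of `f`: an ergodic invariant probability measure, almost all of whose
unstable manifolds are one-dimensional, with absolutely continuous conditional measures along the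
unstable manifolds. (That `μ` has a positive Lyapunov exponent is stated separately, in
`HasExponentsAlong`.) -/
structure IsSRB (f : Torus3 ≃ₜ Torus3) (μ : Measure Torus3) : Prop where
  prob : IsProbabilityMeasure μ
  ergodic : Ergodic f μ
  ac : HasACConditionals f μ

end Pool.Agent.TH292.PH
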