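import Pool.Agent.TH292.PH.NoDom
import Pool.Agent.H165R3.Birk

/-!
# Ergodicity and Lyapunov exponents
-/

set_option autoImplicit false

open Set Filter Topology MeasureTheory Function
open scoped ContDiff ENNReal Real NNReal

namespace Pool.Agent.TH292.PH

open Pool.Agent.TH292.Gold

/-- logarithm of the multiplier, on the circle -/
noncomputable def PT : UnitAddCircle → ℝ := lft PP PP_per

lemma PT_cont : Continuous PT := lft_cont _ _ PP_contDiff.continuous

lemma ccT_eq (x : UnitAddCircle) : ccT x = Real.exp (PT x) := by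
  obtain ⟨x, rfl⟩ := QuotientAddGroup.mk_surjective x
  rfl

lemma PT_bdd (x : UnitAddCircle) : |PT x| ≤ 1 := by
  obtain ⟨x, rfl⟩ := QuotientAddGroup.mk_surjective x
  have h1 := PP_le x
  have h2 := le_PP x
  show |PP x| ≤ 1
  rw [abs_le]
  constructor <;> linarith

lemma integral_PP : ∫ x in (0 : ℝ)..1, PP x = -(1 / 10) := by
  have h : ∀ x ∈ uIcc (0 : ℝ) 1, HasDerivAt (fun x : ℝ => 2 / 5 * (Real.sin (2 * π * x) / (2 * π) +
      1 / 2 * (Real.sin (4 * π * x) / (4 * π))) - 1 / 10 * x) (PP x) x := by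
    intro x _
    have h1 := ((hasDerivAt_id x).const_mul (2 * π))
    have h2 := ((hasDerivAt_id x).const_mul (4 * π))
    simp only [id_eq, mul_one] at h1 h2
    have h3 := (((h1.sin.div_const (2 * π)).add ((h2.sin.div_const (4 * π)).const_mul (1 / 2))).const_mul
      (2 / 5)).sub ((hasDerivAt_id x).const_mul (1 / 10))
    refine h3.congr_deriv ?_
    have := Real.pi_pos.ne'
    unfold PP
    field_simp
  rw [intervalIntegral.integral_eq_sub_of_hasDerivAt h
    (PP_contDiff.continuous.intervalIntegrable _ _)]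
  have h1 : Real.sin (2 * π * 1) = 0 := by rw [mul_one, Real.sin_two_pi]
  have h2 : Real.sin (4 * π * 1) = 0 := by
    rw [show 4 * π * 1 = 2 * π + 2 * π by ring, Real.sin_add_two_pi, Real.sin_two_pi]
  rw [h1, h2]
  simp

lemma integral_PT : ∫ x : T2, PT x.1 = -(1 / 10) := by
  have h1 : MeasurePreserving (Prod.fst : T2 → UnitAddCircle) volume volume :=
    measurePreserving_fst
  have h2 : ∫ x : T2, PT x.1 = ∫ x : UnitAddCircle, PT x := by
    rw [← h1.map_eq, integral_map h1.measurable.aemeasurable PT_cont.aestronglyMeasurable]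
  rw [h2, ← UnitAddCircle.integral_preimage 0, zero_add, ← intervalIntegral.integral_of_le zero_le_one]
  exact integral_PP

theorem birk_AT : ∀ᵐ x : T2, Tendsto (fun n : ℕ => (n : ℝ)⁻¹ *
    ∑ k ∈ Finset.range n, PT (AT^[k] x).1) atTop (𝓝 (-(1 / 10))) := by
  have h := Pool.Agent.H165R3.birkhoff ergodic_AT (fun x => PT x.1)
    (PT_cont.comp continuous_fst).measurable ⟨1, fun x => PT_bdd _⟩
  rwa [integral_PT] at h

theorem birk_AI : ∀ᵐ x : T2, Tendsto (fun n : ℕ => (n : ℝ)⁻¹ *
    ∑ k ∈ Finset.range n, PT (AI^[k] x).1) atTop (𝓝 (-(1 / 10))) := by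
  have h := Pool.Agent.H165R3.birkhoff ergodic_AI (fun x => PT x.1)
    (PT_cont.comp continuous_fst).measurable ⟨1, fun x => PT_bdd _⟩
  rwa [integral_PT] at h

lemma Pn_eq (n : ℕ) (x : T2) : Pn n x = Real.exp (∑ k ∈ Finset.range n, PT (AT^[k] x).1) := by
  unfold Pn
  rw [Real.exp_sum]
  exact Finset.prod_congr rfl fun k _ => ccT_eq _

lemma Gd_ae : ∀ᵐ x : T2, x ∈ Gd := by
  filter_upwards [birk_AT] with x hx
  have h1 := hx.eventually_lt_const (show -(1 / 10 : ℝ) < 0 by norm_num)
  show ∀ᶠ n in atTop, Pn n x ≤ 1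
  filter_upwards [h1, eventually_gt_atTop 0] with n hn hn0
  rw [Pn_eq, Real.exp_le_one_iff]
  have h2 : (0 : ℝ) < (n : ℝ)⁻¹ := by positivity
  by_contra hcon
  push Not at hcon
  have := mul_pos h2 hcon
  linarith

theorem Gd_dense : Dense Gd := Measure.dense_of_ae Gd_ae

/-- the SRB measure: Lebesgue measure on the invariant torus -/
noncomputable def mu : Measure Torus3 := (volume : Measure T2).map io

lemma io_cont : Continuous io := by unfold io; fun_prop

lemma io_inj : Injective io := fun _ _ h => congrArg Prod.fst h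

lemma io_emb : MeasurableEmbedding io :=
  (Continuous.isClosedEmbedding io_cont io_inj).measurableEmbedding

instance mu_prob : IsProbabilityMeasure mu :=
  Measure.isProbabilityMeasure_map io_cont.measurable.aemeasurable

theorem mu_ergodic : Ergodic ff mu := by
  have h1 : MeasurePreserving io (volume : Measure T2) mu := ⟨io_cont.measurable, rfl⟩
  have hs : Semiconj io AT ff := fun x => (ff_io x).symm
  refine ⟨⟨ff.continuous.measurable, ?_⟩, h1.preErgodic_of_preErgodic_semiconj ergodic_AT.toPreErgodic hs⟩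
  unfold mu
  rw [Measure.map_map ff.continuous.measurable io_cont.measurable]
  have h2 : ff ∘ io = io ∘ AT := funext ff_io
  rw [h2, ← Measure.map_map io_cont.measurable AT_cont.measurable, mp_AT.map_eq]

theorem hasExponents : HasExponentsAlong FF mu (fun _ => Ecu) (Real.log φ) (-(1 / 10)) := by
  unfold HasExponentsAlong mu
  rw [io_emb.ae_map_iff]
  filter_upwards [birk_AT] with x hx z hz
  refine ⟨eu, ev, eu_ev_indep, span_eu_ev, ?_, ?_⟩
  · have h1 : ∀ n : ℕ, 0 < n → (1 / (n : ℝ)) * Real.log ‖fderiv ℝ (FF^[n]) z eu‖ =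
        Real.log φ + Real.log ‖eu‖ * (1 / (n : ℝ)) := by
      intro n hn
      have h2 : (n : ℝ) ≠ 0 := by positivity
      have h3 : (0 : ℝ) < φ := by have := lt_φ; linarith
      have h4 : ‖eu‖ ≠ 0 := by
        rw [norm_ne_zero_iff]
        intro h
        have : (1 : ℝ) = 0 := congrArg (fun v : Space => v.1.2) h
        exact one_ne_zero this
      rw [iter_eu hz, norm_smul, norm_pow, Real.norm_eq_abs, abs_of_pos h3,
        Real.log_mul (by positivity) h4, Real.log_pow]
      field_simp
    have h5 : Tendsto (fun n : ℕ => Real.log φ + Real.log ‖eu‖ * (1 / (n : ℝ))) atTop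
        (𝓝 (Real.log φ + Real.log ‖eu‖ * 0)) :=
      (tendsto_one_div_atTop_nhds_zero_nat.const_mul _).const_add _
    rw [mul_zero, add_zero] at h5
    refine h5.congr' ?_
    filter_upwards [eventually_gt_atTop 0] with n hn
    exact (h1 n hn).symm
  · refine hx.congr' ?_
    filter_upwards with n
    have h6 : ‖ev‖ = 1 := by unfold ev; simp
    rw [iter_ev hz, norm_smul, h6, mul_one, Real.norm_eq_abs, abs_of_pos (Pn_pos n x), Pn_eq,
      Real.log_exp, one_div]

end Pool.Agent.TH292.PH
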