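import Pool.Agent.TH292.PH.Defs

/-!
# The functions defining the fibre maps
-/

set_option autoImplicit false

open Set Filter Topology MeasureTheory Function
open scoped ContDiff ENNReal Real

namespace Pool.Agent.TH292.PH

/-- logarithm of the multiplier of the invariant torus -/
noncomputable def PP (x : ℝ) : ℝ := 2 / 5 * (Real.cos (2 * π * x) + 1 / 2 * Real.cos (4 * π * x)) - 1 / 10
/-- multiplier of the invariant torus -/
noncomputable def cc (x : ℝ) : ℝ := Real.exp (PP x)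
/-- derivative of the multiplier -/
noncomputable def cc' (x : ℝ) : ℝ :=
  cc x * (2 / 5 * (-Real.sin (2 * π * x) * (2 * π) + 1 / 2 * (-Real.sin (4 * π * x) * (4 * π))))
/-- the first shape function -/
noncomputable def ss (y : ℝ) : ℝ :=
  (9 * Real.sin (2 * π * y) + 3 * Real.sin (4 * π * y) + Real.sin (6 * π * y)) / (36 * π)
/-- its derivative -/
noncomputable def ss' (y : ℝ) : ℝ :=
  (3 * Real.cos (2 * π * y) + 2 * Real.cos (4 * π * y) + Real.cos (6 * π * y)) / 6
/-- the second shape function -/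
noncomputable def kk (y : ℝ) : ℝ := (2 * Real.sin (2 * π * y) - Real.sin (4 * π * y)) / (2 * π)
/-- its derivative -/
noncomputable def kk' (y : ℝ) : ℝ := 2 * Real.cos (2 * π * y) - 2 * Real.cos (4 * π * y)

/-- the displacement of the fibre maps -/
noncomputable def gg (x y : ℝ) : ℝ := (cc x - 1) * ss y - 3 / 40 * kk y

/-- the derivative of the fibre maps -/
noncomputable def dd (x y : ℝ) : ℝ := 1 + (cc x - 1) * ss' y - 3 / 40 * kk' y

/-- the derivative of the displacement in the base direction -/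
noncomputable def hh (x y : ℝ) : ℝ := cc' x * ss y

lemma PP_contDiff : ContDiff ℝ ∞ PP := by unfold PP; fun_prop
lemma cc_contDiff : ContDiff ℝ ∞ cc := by unfold cc PP; fun_prop
lemma cc'_contDiff : ContDiff ℝ ∞ cc' := by unfold cc' cc PP; fun_prop
lemma ss_contDiff : ContDiff ℝ ∞ ss := by unfold ss; fun_prop
lemma ss'_contDiff : ContDiff ℝ ∞ ss' := by unfold ss'; fun_prop
lemma kk_contDiff : ContDiff ℝ ∞ kk := by unfold kk; fun_prop
lemma kk'_contDiff : ContDiff ℝ ∞ kk' := by unfold kk'; fun_prop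

lemma cc_deriv (x : ℝ) : HasDerivAt cc (cc' x) x := by
  have h1 := ((hasDerivAt_id x).const_mul (2 * π))
  have h2 := ((hasDerivAt_id x).const_mul (4 * π))
  simp only [id_eq, mul_one] at h1 h2
  exact (((h1.cos.add (h2.cos.const_mul (1 / 2))).const_mul (2 / 5)).sub_const (1 / 10)).exp

lemma ss_deriv (y : ℝ) : HasDerivAt ss (ss' y) y := by
  have h1 := ((hasDerivAt_id y).const_mul (2 * π))
  have h2 := ((hasDerivAt_id y).const_mul (4 * π))
  have h3 := ((hasDerivAt_id y).const_mul (6 * π))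
  simp only [id_eq, mul_one] at h1 h2 h3
  have h4 := (((h1.sin.const_mul 9).add (h2.sin.const_mul 3)).add h3.sin).div_const (36 * π)
  refine HasDerivAt.congr_deriv (f := ss) h4 ?_
  have := Real.pi_pos.ne'
  unfold ss'
  field_simp
  ring

lemma kk_deriv (y : ℝ) : HasDerivAt kk (kk' y) y := by
  have h1 := ((hasDerivAt_id y).const_mul (2 * π))
  have h2 := ((hasDerivAt_id y).const_mul (4 * π))
  simp only [id_eq, mul_one] at h1 h2
  have h4 := ((h1.sin.const_mul 2).sub h2.sin).div_const (2 * π)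
  refine HasDerivAt.congr_deriv (f := kk) h4 ?_
  have := Real.pi_pos.ne'
  unfold kk'
  field_simp
  ring

lemma cc_pos (x : ℝ) : 0 < cc x := Real.exp_pos _

lemma cos4 (x : ℝ) : Real.cos (4 * π * x) = 2 * Real.cos (2 * π * x) ^ 2 - 1 := by
  rw [← Real.cos_two_mul]; ring_nf

lemma cos6 (x : ℝ) : Real.cos (6 * π * x) = 4 * Real.cos (2 * π * x) ^ 3 - 3 * Real.cos (2 * π * x) := by
  rw [← Real.cos_three_mul]; ring_nf

lemma PP_le (x : ℝ) : PP x ≤ 1 / 2 := by
  unfold PP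
  rw [cos4]
  have h1 := Real.neg_one_le_cos (2 * π * x)
  have h2 := Real.cos_le_one (2 * π * x)
  nlinarith

lemma le_PP (x : ℝ) : -(2 / 5) ≤ PP x := by
  unfold PP
  rw [cos4]
  nlinarith [sq_nonneg (2 * Real.cos (2 * π * x) + 1)]

lemma exp_half_lt : Real.exp (1 / 2) < 1.649 := by
  have h1 := Real.exp_one_lt_d9
  have h2 : Real.exp (1 / 2) * Real.exp (1 / 2) = Real.exp 1 := by
    rw [← Real.exp_add]; norm_num
  have h4 := Real.exp_pos (1 / 2 : ℝ)
  nlinarith

lemma lt_exp_half : 1.64 < Real.exp (1 / 2) := by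
  have h1 := Real.exp_one_gt_d9
  have h2 : Real.exp (1 / 2) * Real.exp (1 / 2) = Real.exp 1 := by
    rw [← Real.exp_add]; norm_num
  have h4 := Real.exp_pos (1 / 2 : ℝ)
  nlinarith

lemma le_exp_neg : 2 / 3 ≤ Real.exp (-(2 / 5)) := by
  have h1 := Real.exp_one_lt_d9
  have h2 : Real.exp (2 / 5) ^ 5 = Real.exp 1 ^ 2 := by
    rw [← Real.exp_nat_mul, ← Real.exp_nat_mul]; norm_num
  have h3 : Real.exp (2 / 5) ≤ 3 / 2 := by
    by_contra hcon
    push Not at hcon
    have h4 : (3 / 2 : ℝ) ^ 5 < Real.exp (2 / 5) ^ 5 := pow_lt_pow_left₀ hcon (by norm_num) (by norm_num)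
    rw [h2] at h4
    have h5 := Real.exp_pos (1 : ℝ)
    nlinarith
  have h6 : Real.exp (-(2 / 5)) * Real.exp (2 / 5) = 1 := by
    rw [← Real.exp_add]; norm_num
  have h7 := Real.exp_pos (-(2 / 5) : ℝ)
  nlinarith

lemma cc_le (x : ℝ) : cc x ≤ 1.649 := (Real.exp_le_exp.mpr (PP_le x)).trans exp_half_lt.le
lemma le_cc (x : ℝ) : 2 / 3 ≤ cc x := le_exp_neg.trans (Real.exp_le_exp.mpr (le_PP x))

lemma PP_zero : PP 0 = 1 / 2 := by unfold PP; simp; norm_num
lemma cc_zero : cc 0 = Real.exp (1 / 2) := by unfold cc; rw [PP_zero]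

lemma dd_ge (x y : ℝ) : 31 / 50 ≤ dd x y := by
  unfold dd ss' kk'
  rw [cos4, cos6]
  set X := Real.cos (2 * π * y)
  have h1 : -1 ≤ X := Real.neg_one_le_cos (2 * π * y)
  have h2 : X ≤ 1 := Real.cos_le_one (2 * π * y)
  set a := cc x - 1 with ha
  have h3 : -(1 / 3) ≤ a := by have := le_cc x; linarith
  have h4 : a ≤ 0.649 := by have := cc_le x; linarith
  have e1 : 31 / 50 ≤ 1 + 0.649 * ((3 * X + 2 * (2 * X ^ 2 - 1) + (4 * X ^ 3 - 3 * X)) / 6) -
      3 / 40 * (2 * X - 2 * (2 * X ^ 2 - 1)) := by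
    nlinarith [mul_nonneg (sq_nonneg X) (by linarith : 0 ≤ X + 1), sq_nonneg (X - 0.1),
      sq_nonneg X]
  have e2 : 31 / 50 ≤ 1 + (-(1 / 3)) * ((3 * X + 2 * (2 * X ^ 2 - 1) + (4 * X ^ 3 - 3 * X)) / 6) -
      3 / 40 * (2 * X - 2 * (2 * X ^ 2 - 1)) := by
    nlinarith [mul_nonneg (sq_nonneg X) (by linarith : 0 ≤ 1 - X), sq_nonneg X]
  nlinarith [mul_nonneg (by linarith : 0 ≤ 0.649 - a) (by linarith : 0 ≤ 1 + (-(1 / 3)) * ((3 * X + 2 * (2 * X ^ 2 - 1) + (4 * X ^ 3 - 3 * X)) / 6) -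
      3 / 40 * (2 * X - 2 * (2 * X ^ 2 - 1)) - 31 / 50), mul_nonneg (by linarith : 0 ≤ a + 1 / 3) (by linarith : 0 ≤ 1 + 0.649 * ((3 * X + 2 * (2 * X ^ 2 - 1) + (4 * X ^ 3 - 3 * X)) / 6) -
      3 / 40 * (2 * X - 2 * (2 * X ^ 2 - 1)) - 31 / 50)]

lemma ss_zero : ss 0 = 0 := by unfold ss; simp
lemma ss'_zero : ss' 0 = 1 := by unfold ss'; simp; norm_num
lemma kk_zero : kk 0 = 0 := by unfold kk; simp
lemma kk'_zero : kk' 0 = 0 := by unfold kk'; simp

lemma ss_neg (y : ℝ) : ss (-y) = - ss y := by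
  unfold ss
  rw [mul_neg, mul_neg, mul_neg, Real.sin_neg, Real.sin_neg, Real.sin_neg]
  ring
lemma kk_neg (y : ℝ) : kk (-y) = - kk y := by
  unfold kk
  rw [mul_neg, mul_neg, Real.sin_neg, Real.sin_neg]
  ring
lemma gg_neg (x y : ℝ) : gg x (-y) = - gg x y := by
  unfold gg
  rw [ss_neg, kk_neg]
  ring

lemma gg_zero (x : ℝ) : gg x 0 = 0 := by unfold gg; rw [ss_zero, kk_zero]; ring
lemma dd_zero (x : ℝ) : dd x 0 = cc x := by unfold dd; rw [ss'_zero, kk'_zero]; ring
lemma hh_zero (x : ℝ) : hh x 0 = 0 := by unfold hh; rw [ss_zero]; ring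

lemma PP_per (x : ℝ) : PP (x + 1) = PP x := by
  unfold PP
  rw [show 2 * π * (x + 1) = 2 * π * x + 2 * π by ring,
    show 4 * π * (x + 1) = 4 * π * x + 2 * π + 2 * π by ring, Real.cos_add_two_pi,
    Real.cos_add_two_pi, Real.cos_add_two_pi]
lemma cc_per (x : ℝ) : cc (x + 1) = cc x := by unfold cc; rw [PP_per]
lemma cc'_per (x : ℝ) : cc' (x + 1) = cc' x := by
  unfold cc'
  rw [cc_per, show 2 * π * (x + 1) = 2 * π * x + 2 * π by ring,
    show 4 * π * (x + 1) = 4 * π * x + 2 * π + 2 * π by ring, Real.sin_add_two_pi,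
    Real.sin_add_two_pi, Real.sin_add_two_pi]
lemma ss_per (y : ℝ) : ss (y + 1) = ss y := by
  unfold ss
  rw [show 2 * π * (y + 1) = 2 * π * y + 2 * π by ring,
    show 4 * π * (y + 1) = 4 * π * y + 2 * π + 2 * π by ring,
    show 6 * π * (y + 1) = 6 * π * y + 2 * π + 2 * π + 2 * π by ring]
  simp only [Real.sin_add_two_pi]
lemma ss'_per (y : ℝ) : ss' (y + 1) = ss' y := by
  unfold ss'
  rw [show 2 * π * (y + 1) = 2 * π * y + 2 * π by ring,
    show 4 * π * (y + 1) = 4 * π * y + 2 * π + 2 * π by ring,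
    show 6 * π * (y + 1) = 6 * π * y + 2 * π + 2 * π + 2 * π by ring]
  simp only [Real.cos_add_two_pi]
lemma kk_per (y : ℝ) : kk (y + 1) = kk y := by
  unfold kk
  rw [show 2 * π * (y + 1) = 2 * π * y + 2 * π by ring,
    show 4 * π * (y + 1) = 4 * π * y + 2 * π + 2 * π by ring]
  simp only [Real.sin_add_two_pi]
lemma kk'_per (y : ℝ) : kk' (y + 1) = kk' y := by
  unfold kk'
  rw [show 2 * π * (y + 1) = 2 * π * y + 2 * π by ring,
    show 4 * π * (y + 1) = 4 * π * y + 2 * π + 2 * π by ring]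
  simp only [Real.cos_add_two_pi]

lemma gg_per_left (x y : ℝ) : gg (x + 1) y = gg x y := by unfold gg; rw [cc_per]
lemma gg_per_right (x y : ℝ) : gg x (y + 1) = gg x y := by unfold gg; rw [ss_per, kk_per]
lemma dd_per_left (x y : ℝ) : dd (x + 1) y = dd x y := by unfold dd; rw [cc_per]
lemma dd_per_right (x y : ℝ) : dd x (y + 1) = dd x y := by unfold dd; rw [ss'_per, kk'_per]
lemma hh_per_left (x y : ℝ) : hh (x + 1) y = hh x y := by unfold hh; rw [cc'_per]
lemma hh_per_right (x y : ℝ) : hh x (y + 1) = hh x y := by unfold hh; rw [ss_per]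

lemma gg_deriv (x y : ℝ) : HasDerivAt (fun y => y + gg x y) (dd x y) y := by
  have h := (hasDerivAt_id y).add (((ss_deriv y).const_mul (cc x - 1)).sub ((kk_deriv y).const_mul (3 / 40)))
  refine h.congr_deriv ?_
  unfold dd
  ring

lemma fib_strictMono (x : ℝ) : StrictMono fun y => y + gg x y := by
  apply strictMono_of_deriv_pos
  intro y
  rw [(gg_deriv x y).deriv]
  have := dd_ge x y
  linarith

lemma gg_third (x : ℝ) : gg x (1 / 3) < 0 := by
  unfold gg ss kk
  have h1 : Real.sin (2 * π * (1 / 3)) = √3 / 2 := by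
    rw [show 2 * π * (1 / 3) = π - π / 3 by ring, Real.sin_pi_sub, Real.sin_pi_div_three]
  have h2 : Real.sin (4 * π * (1 / 3)) = -(√3 / 2) := by
    rw [show 4 * π * (1 / 3) = π / 3 + π by ring, Real.sin_add_pi, Real.sin_pi_div_three]
  have h3 : Real.sin (6 * π * (1 / 3)) = 0 := by
    rw [show 6 * π * (1 / 3) = 2 * π by ring, Real.sin_two_pi]
  rw [h1, h2, h3]
  have h4 := cc_le x
  have h5 := Real.pi_pos
  have h6 : (0 : ℝ) < √3 := by positivity
  have : (cc x - 1) * ((9 * (√3 / 2) + 3 * -(√3 / 2) + 0) / (36 * π)) -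
      3 / 40 * ((2 * (√3 / 2) - -(√3 / 2)) / (2 * π)) = √3 / π * ((cc x - 1) / 12 - 9 / 160) := by
    field_simp
    ring
  rw [this]
  apply mul_neg_of_pos_of_neg (by positivity)
  linarith

lemma third_fib (x y : ℝ) (hy : |y| ≤ 1 / 3) : |y + gg x y| < 1 / 3 := by
  have h1 := (fib_strictMono x).monotone
  have h2 : y + gg x y ≤ 1 / 3 + gg x (1 / 3) := h1 (abs_le.mp hy).2
  have h3 : -(1 / 3) + gg x (-(1 / 3)) ≤ y + gg x y := h1 (abs_le.mp hy).1
  rw [gg_neg] at h3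
  have h4 := gg_third x
  rw [abs_lt]
  constructor <;> linarith

end Pool.Agent.TH292.PH
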