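import Pool.Agent.TH292.PH.Cond

/-!
# Assembling the main theorem
-/

set_option autoImplicit false

open Set Filter Topology MeasureTheory Function ProbabilityTheory
open scoped ContDiff ENNReal Real NNReal

namespace Pool.Agent.TH292.PH

open Pool.Agent.TH292.Gold

lemma range_sub_support : range io ⊆ mu.support := by
  rintro _ ⟨x, rfl⟩
  rw [Measure.mem_support_iff_forall]
  intro V hV
  obtain ⟨W, hWV, hWo, hxW⟩ := mem_nhds_iff.mp hV
  refine lt_of_lt_of_le ?_ (measure_mono hWV)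
  unfold mu
  rw [Measure.map_apply io_cont.measurable hWo.measurableSet]
  exact (hWo.preimage io_cont).measure_pos _ ⟨x, hxW⟩

lemma mu_compl : mu Lamᶜ = 0 := by
  unfold mu
  rw [Measure.map_apply io_cont.measurable Lam_compact.isClosed.measurableSet.compl]
  have : io ⁻¹' Lamᶜ = ∅ := by
    ext x
    simp [io_mem x]
  rw [this, measure_empty]

lemma Lam_ne : Lam ≠ univ := by
  intro h
  have h1 : proj ((0, 0), 2 / 5) ∈ Lam := by rw [h]; trivial
  have h2 : ‖((2 / 5 : ℝ) : UnitAddCircle)‖ < 1 / 3 := Lam_sub h1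
  rw [norm_coe_eq (by rw [abs_of_pos (by norm_num)]; norm_num), abs_of_pos (by norm_num)] at h2
  norm_num at h2

theorem isSRB : IsSRB ff mu := ⟨mu_prob, mu_ergodic, hasACConditionals⟩

theorem main : ∃ (f : Torus3 ≃ₜ Torus3) (F G : Space → Space) (Λ : Set Torus3)
    (Es Ecu : Torus3 → Submodule ℝ Space) (μ : Measure Torus3) (χp χm : ℝ),
    IsSmoothDiffeo f F G ∧ IsDissipative f ∧ IsAttractingSet f Λ ∧ Λ ≠ univ ∧
    HasStableAndCenterUnstable f F Λ Es Ecu ∧ (∀ x ∈ Λ, Module.finrank ℝ (Ecu x) = 2) ∧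
    ¬ HasDominatedSubsplitting f F Λ Ecu ∧ ¬ HasDominatedSubsplitting f F μ.support Ecu ∧
    IsSRB f μ ∧ μ Λᶜ = 0 ∧ χm < 0 ∧ 0 < χp ∧ HasExponentsAlong F μ Ecu χp χm :=
  ⟨ff, FF, GG, Lam, Es, fun _ => Ecu, mu, Real.log φ, -(1 / 10), isSmoothDiffeo, isDissipative,
    isAttractingSet, Lam_ne, hasStableAndCenterUnstable Lam, fun _ _ => finrank_Ecu,
    noDominated Gd_dense (by rintro _ ⟨x, rfl⟩; exact io_mem x),
    noDominated Gd_dense range_sub_support, isSRB, mu_compl, by norm_num,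
    Real.log_pos Real.one_lt_goldenRatio, hasExponents⟩

end Pool.Agent.TH292.PH
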