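import Pool.Agent.TH292.PH.Fun

/-!
# The diffeomorphism of the three-torus
-/

set_option autoImplicit false

open Set Filter Topology MeasureTheory Function
open scoped ContDiff ENNReal Real

namespace Pool.Agent.TH292.PH

/-- the lift -/
noncomputable def FF (z : Space) : Space := ((z.1.1 + z.1.2, z.1.1), z.2 + gg z.1.1 z.2)

/-- the linear map `(v₁, v₂, v₃) ↦ (v₁ + v₂, v₁, h v₁ + d v₃)` -/
noncomputable def LL (h d : ℝ) : Space →L[ℝ] Space :=
  (((ContinuousLinearMap.fst ℝ ℝ ℝ + ContinuousLinearMap.snd ℝ ℝ ℝ).prod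
    (ContinuousLinearMap.fst ℝ ℝ ℝ)).comp (ContinuousLinearMap.fst ℝ (ℝ × ℝ) ℝ)).prod
  (h • ((ContinuousLinearMap.fst ℝ ℝ ℝ).comp (ContinuousLinearMap.fst ℝ (ℝ × ℝ) ℝ)) +
    d • ContinuousLinearMap.snd ℝ (ℝ × ℝ) ℝ)

@[simp] lemma LL_apply (h d : ℝ) (v : Space) :
    LL h d v = ((v.1.1 + v.1.2, v.1.1), h * v.1.1 + d * v.2) := by
  simp [LL]

lemma gg_contDiff : ContDiff ℝ ∞ fun z : Space => gg z.1.1 z.2 := by
  unfold gg
  have h1 : ContDiff ℝ ∞ fun z : Space => z.1.1 := contDiff_fst.comp contDiff_fst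
  exact (((cc_contDiff.comp h1).sub contDiff_const).mul (ss_contDiff.comp contDiff_snd)).sub
    (contDiff_const.mul (kk_contDiff.comp contDiff_snd))

lemma FF_contDiff : ContDiff ℝ ∞ FF := by
  unfold FF
  have h1 : ContDiff ℝ ∞ fun z : Space => z.1.1 := contDiff_fst.comp contDiff_fst
  have h2 : ContDiff ℝ ∞ fun z : Space => z.1.2 := contDiff_snd.comp contDiff_fst
  exact ((h1.add h2).prodMk h1).prodMk (contDiff_snd.add gg_contDiff)

lemma FF_deriv (z : Space) : HasFDerivAt FF (LL (hh z.1.1 z.2) (dd z.1.1 z.2)) z := by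
  have a1 : HasFDerivAt (fun z : Space => z.1.1)
      ((ContinuousLinearMap.fst ℝ ℝ ℝ).comp (ContinuousLinearMap.fst ℝ (ℝ × ℝ) ℝ)) z :=
    hasFDerivAt_fst.comp z hasFDerivAt_fst
  have a2 : HasFDerivAt (fun z : Space => z.1.2)
      ((ContinuousLinearMap.snd ℝ ℝ ℝ).comp (ContinuousLinearMap.fst ℝ (ℝ × ℝ) ℝ)) z :=
    hasFDerivAt_snd.comp z hasFDerivAt_fst
  have a3 : HasFDerivAt (fun z : Space => z.2) (ContinuousLinearMap.snd ℝ (ℝ × ℝ) ℝ) z :=
    hasFDerivAt_snd
  have b1 := (cc_deriv z.1.1).comp_hasFDerivAt z a1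
  have b2 := (ss_deriv z.2).comp_hasFDerivAt z a3
  have b3 := (kk_deriv z.2).comp_hasFDerivAt z a3
  have b4 := a3.add (((b1.sub_const 1).mul b2).sub (b3.const_mul (3 / 40)))
  have b5 := ((a1.add a2).prodMk a1).prodMk b4
  refine b5.congr_fderiv ?_
  apply ContinuousLinearMap.ext
  intro v
  rw [LL_apply]
  ext
  · simp
  · simp
  · simp [hh, dd]
    ring

lemma FF_fderiv (z : Space) : fderiv ℝ FF z = LL (hh z.1.1 z.2) (dd z.1.1 z.2) := (FF_deriv z).fderiv

/-- the inverse linear map -/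
noncomputable def LLe (h d : ℝ) (hd : d ≠ 0) : Space ≃L[ℝ] Space :=
  ContinuousLinearEquiv.equivOfInverse (LL h d)
    ((((ContinuousLinearMap.snd ℝ ℝ ℝ).prod
      (ContinuousLinearMap.fst ℝ ℝ ℝ - ContinuousLinearMap.snd ℝ ℝ ℝ)).comp
        (ContinuousLinearMap.fst ℝ (ℝ × ℝ) ℝ)).prod
      (d⁻¹ • (ContinuousLinearMap.snd ℝ (ℝ × ℝ) ℝ -
        h • ((ContinuousLinearMap.snd ℝ ℝ ℝ).comp (ContinuousLinearMap.fst ℝ (ℝ × ℝ) ℝ)))))
    (by
      intro v
      rw [LL_apply]
      ext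
      · simp
      · simp
      · simp [hd])
    (by
      intro v
      rw [LL_apply]
      ext
      · simp
      · simp
      · simp
        field_simp
        ring)

lemma LLe_coe (h d : ℝ) (hd : d ≠ 0) : (LLe h d hd : Space →L[ℝ] Space) = LL h d := rfl

lemma dd_ne (x y : ℝ) : dd x y ≠ 0 := by
  have := dd_ge x y
  linarith

lemma gg_bdd : ∃ B, ∀ x y, |gg x y| ≤ B := by
  refine ⟨2, fun x y => ?_⟩
  unfold gg ss kk
  have hpi := Real.pi_gt_three
  have h1 := cc_le x
  have h2 := le_cc x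
  have e : (cc x - 1) * ((9 * Real.sin (2 * π * y) + 3 * Real.sin (4 * π * y) +
      Real.sin (6 * π * y)) / (36 * π)) -
      3 / 40 * ((2 * Real.sin (2 * π * y) - Real.sin (4 * π * y)) / (2 * π)) =
      ((cc x - 1) * (9 * Real.sin (2 * π * y) + 3 * Real.sin (4 * π * y) +
      Real.sin (6 * π * y)) / 36 -
      3 / 80 * (2 * Real.sin (2 * π * y) - Real.sin (4 * π * y))) / π := by
    field_simp
    ring
  rw [e, abs_div, abs_of_pos Real.pi_pos, div_le_iff₀ Real.pi_pos]
  have s1 := Real.neg_one_le_sin (2 * π * y)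
  have s2 := Real.sin_le_one (2 * π * y)
  have s3 := Real.neg_one_le_sin (4 * π * y)
  have s4 := Real.sin_le_one (4 * π * y)
  have s5 := Real.neg_one_le_sin (6 * π * y)
  have s6 := Real.sin_le_one (6 * π * y)
  rw [abs_le]
  constructor <;> nlinarith

lemma fib_surj (x : ℝ) : Surjective fun y => y + gg x y := by
  obtain ⟨B, hB⟩ := gg_bdd
  have hc : Continuous fun y => y + gg x y :=
    continuous_iff_continuousAt.mpr fun y => (gg_deriv x y).continuousAt
  apply hc.surjective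
  · exact tendsto_atTop_add_right_of_le _ (-B) tendsto_id fun y => (abs_le.mp (hB x y)).1
  · exact tendsto_atBot_add_right_of_ge _ B tendsto_id fun y => (abs_le.mp (hB x y)).2

lemma FF_bij : Bijective FF := by
  constructor
  · intro z z' h
    have h1 : z.1.1 + z.1.2 = z'.1.1 + z'.1.2 := congrArg (fun w : Space => w.1.1) h
    have h2 : z.1.1 = z'.1.1 := congrArg (fun w : Space => w.1.2) h
    have h3 : z.2 + gg z.1.1 z.2 = z'.2 + gg z'.1.1 z'.2 := congrArg (fun w : Space => w.2) h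
    rw [h2] at h3
    have h4 : z.2 = z'.2 := (fib_strictMono z'.1.1).injective h3
    have h5 : z.1.2 = z'.1.2 := by linarith
    exact Prod.ext (Prod.ext h2 h5) h4
  · intro w
    obtain ⟨y, hy⟩ := fib_surj w.1.2 w.2
    refine ⟨((w.1.2, w.1.1 - w.1.2), y), ?_⟩
    unfold FF
    ext
    · simp
    · simp
    · exact hy

lemma FF_open : IsOpenMap FF := by
  apply isOpenMap_of_hasStrictFDerivAt_equiv (𝕜 := ℝ) (f' := fun z => LLe (hh z.1.1 z.2) (dd z.1.1 z.2) (dd_ne _ _))
  intro z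
  rw [LLe_coe, ← FF_fderiv]
  exact (FF_contDiff.contDiffAt).hasStrictFDerivAt (by simp)

/-- the lift as a homeomorphism of the universal cover -/
noncomputable def FFh : Space ≃ₜ Space :=
  (Equiv.ofBijective FF FF_bij).toHomeomorphOfContinuousOpen FF_contDiff.continuous FF_open

lemma FFh_apply (z : Space) : FFh z = FF z := rfl

/-- the lift of the inverse -/
noncomputable def GG : Space → Space := FFh.symm

lemma GG_contDiff : ContDiff ℝ ∞ GG := by
  apply FFh.contDiff_symm (f₀' := fun z => LLe (hh z.1.1 z.2) (dd z.1.1 z.2) (dd_ne _ _))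
  · intro z
    rw [LLe_coe]
    exact FF_deriv z
  · exact FF_contDiff

lemma GG_FF (z : Space) : GG (FF z) = z := FFh.symm_apply_apply z
lemma FF_GG (z : Space) : FF (GG z) = z := FFh.apply_symm_apply z

/-! ### The torus -/

lemma coe_eq_iff (a b : ℝ) : (a : UnitAddCircle) = b ↔ ∃ n : ℤ, b = a + n := by
  rw [QuotientAddGroup.eq, AddSubgroup.mem_zmultiples_iff]
  constructor
  · rintro ⟨n, hn⟩
    refine ⟨n, ?_⟩
    rw [zsmul_eq_mul, mul_one] at hn
    linarith
  · rintro ⟨n, hn⟩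
    refine ⟨n, ?_⟩
    rw [zsmul_eq_mul, mul_one]
    linarith

lemma proj_eq_iff (z w : Space) : proj z = proj w ↔
    ∃ m n k : ℤ, w = ((z.1.1 + m, z.1.2 + n), z.2 + k) := by
  unfold proj
  constructor
  · intro h
    have h1 := congrArg (fun w : Torus3 => w.1.1) h
    have h2 := congrArg (fun w : Torus3 => w.1.2) h
    have h3 := congrArg (fun w : Torus3 => w.2) h
    simp only [coe_eq_iff] at h1 h2 h3
    obtain ⟨m, hm⟩ := h1
    obtain ⟨n, hn⟩ := h2
    obtain ⟨k, hk⟩ := h3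
    exact ⟨m, n, k, Prod.ext (Prod.ext hm hn) hk⟩
  · rintro ⟨m, n, k, rfl⟩
    ext
    · exact (coe_eq_iff _ _).mpr ⟨m, rfl⟩
    · exact (coe_eq_iff _ _).mpr ⟨n, rfl⟩
    · exact (coe_eq_iff _ _).mpr ⟨k, rfl⟩

lemma proj_surj : Surjective proj := by
  rintro ⟨⟨a, b⟩, c⟩
  obtain ⟨a, rfl⟩ := QuotientAddGroup.mk_surjective a
  obtain ⟨b, rfl⟩ := QuotientAddGroup.mk_surjective b
  obtain ⟨c, rfl⟩ := QuotientAddGroup.mk_surjective c
  exact ⟨((a, b), c), rfl⟩

lemma proj_cont : Continuous proj := by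
  unfold proj
  have : Continuous fun x : ℝ => (x : UnitAddCircle) := AddCircle.continuous_mk' 1
  fun_prop

/-- descend a periodic function -/
noncomputable def lft (u : ℝ → ℝ) (h : ∀ x, u (x + 1) = u x) : UnitAddCircle → ℝ :=
  Periodic.lift (f := u) (c := 1) h

lemma lft_coe (u : ℝ → ℝ) (h : ∀ x, u (x + 1) = u x) (x : ℝ) : lft u h x = u x := rfl

lemma lft_cont (u : ℝ → ℝ) (h : ∀ x, u (x + 1) = u x) (hu : Continuous u) : Continuous (lft u h) :=
  continuous_coinduced_dom.mpr hu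

/-- the displacement on the torus -/
noncomputable def gT (x y : UnitAddCircle) : ℝ :=
  (lft cc cc_per x - 1) * lft ss ss_per y - 3 / 40 * lft kk kk_per y

/-- the fibre derivative on the torus -/
noncomputable def dT (w : Torus3) : ℝ :=
  1 + (lft cc cc_per w.1.1 - 1) * lft ss' ss'_per w.2 - 3 / 40 * lft kk' kk'_per w.2

/-- the mixed derivative on the torus -/
noncomputable def hT (w : Torus3) : ℝ := lft cc' cc'_per w.1.1 * lft ss ss_per w.2

lemma gT_coe (x y : ℝ) : gT x y = gg x y := rfl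
lemma dT_proj (z : Space) : dT (proj z) = dd z.1.1 z.2 := rfl
lemma hT_proj (z : Space) : hT (proj z) = hh z.1.1 z.2 := rfl

lemma gT_cont : Continuous fun w : Torus3 => gT w.1.1 w.2 := by
  unfold gT
  have h1 := lft_cont cc cc_per cc_contDiff.continuous
  have h2 := lft_cont ss ss_per ss_contDiff.continuous
  have h3 := lft_cont kk kk_per kk_contDiff.continuous
  fun_prop

lemma dT_cont : Continuous dT := by
  unfold dT
  have h1 := lft_cont cc cc_per cc_contDiff.continuous
  have h2 := lft_cont ss' ss'_per ss'_contDiff.continuous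
  have h3 := lft_cont kk' kk'_per kk'_contDiff.continuous
  fun_prop

lemma hT_cont : Continuous hT := by
  unfold hT
  have h1 := lft_cont cc' cc'_per cc'_contDiff.continuous
  have h2 := lft_cont ss ss_per ss_contDiff.continuous
  fun_prop

/-- the map of the torus -/
noncomputable def fT (w : Torus3) : Torus3 :=
  ((w.1.1 + w.1.2, w.1.1), w.2 + (gT w.1.1 w.2 : UnitAddCircle))

lemma fT_proj (z : Space) : fT (proj z) = proj (FF z) := rfl

lemma fT_cont : Continuous fT := by
  unfold fT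
  have h1 : Continuous fun x : ℝ => (x : UnitAddCircle) := AddCircle.continuous_mk' 1
  have h2 := h1.comp gT_cont
  have h3 : Continuous fun w : Torus3 => (gT w.1.1 w.2 : UnitAddCircle) := h2
  fun_prop

lemma gg_int_left (x y : ℝ) (m : ℤ) : gg (x + m) y = gg x y := by
  have h : Periodic (fun x => gg x y) 1 := fun x => gg_per_left x y
  have := h.int_mul m x
  simpa using this

lemma gg_int_right (x y : ℝ) (m : ℤ) : gg x (y + m) = gg x y := by
  have h : Periodic (fun y => gg x y) 1 := fun y => gg_per_right x y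
  have := h.int_mul m y
  simpa using this

lemma FF_add (z : Space) (m n k : ℤ) : FF ((z.1.1 + m, z.1.2 + n), z.2 + k) =
    (((FF z).1.1 + (m + n : ℤ), (FF z).1.2 + m), (FF z).2 + k) := by
  unfold FF
  simp only [gg_int_left, gg_int_right]
  ext
  · push_cast; ring
  · rfl
  · ring

lemma fT_bij : Bijective fT := by
  constructor
  · intro a b h
    obtain ⟨z, rfl⟩ := proj_surj a
    obtain ⟨w, rfl⟩ := proj_surj b
    rw [fT_proj, fT_proj, proj_eq_iff] at h
    obtain ⟨m, n, k, h⟩ := h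
    have h2 := FF_add z n (m - n) k
    have h3 : FF w = FF ((z.1.1 + n, z.1.2 + (m - n : ℤ)), z.2 + k) := by
      rw [h, h2]
      simp
    have h4 := FF_bij.1 h3
    rw [proj_eq_iff]
    exact ⟨n, m - n, k, h4⟩
  · intro b
    obtain ⟨w, rfl⟩ := proj_surj b
    exact ⟨proj (GG w), by rw [fT_proj, FF_GG]⟩

/-- the diffeomorphism of the torus -/
noncomputable def ff : Torus3 ≃ₜ Torus3 :=
  Continuous.homeoOfEquivCompactToT2 (f := Equiv.ofBijective fT fT_bij) fT_cont

lemma ff_apply (w : Torus3) : ff w = fT w := rfl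

lemma ff_proj (z : Space) : ff (proj z) = proj (FF z) := fT_proj z

lemma ff_symm_proj (z : Space) : ff.symm (proj z) = proj (GG z) := by
  rw [Homeomorph.symm_apply_eq, ff_proj, FF_GG]

theorem isSmoothDiffeo : IsSmoothDiffeo ff FF GG := ⟨ff_proj, ff_symm_proj, FF_contDiff, GG_contDiff⟩

end Pool.Agent.TH292.PH
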