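import Pool.Agent.TH292.PH.Attr

/-!
# There is no dominated subsplitting
-/

set_option autoImplicit false

open Set Filter Topology MeasureTheory Function
open scoped ContDiff ENNReal Real NNReal

namespace Pool.Agent.TH292.PH

open Pool.Agent.TH292.Gold

/-- multiplier of the invariant torus, on the circle -/
noncomputable def ccT : UnitAddCircle → ℝ := lft cc cc_per

lemma ccT_cont : Continuous ccT := lft_cont _ _ cc_contDiff.continuous

lemma ccT_pos (x : UnitAddCircle) : 0 < ccT x := by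
  obtain ⟨x, rfl⟩ := QuotientAddGroup.mk_surjective x
  exact cc_pos x

lemma dT_io (x : UnitAddCircle × UnitAddCircle) : dT (io x) = ccT x.1 := by
  obtain ⟨a, b⟩ := x
  obtain ⟨a, rfl⟩ := QuotientAddGroup.mk_surjective a
  obtain ⟨b, rfl⟩ := QuotientAddGroup.mk_surjective b
  exact (dT_proj ((a, b), 0)).trans (dd_zero a)

lemma hT_io (x : UnitAddCircle × UnitAddCircle) : hT (io x) = 0 := by
  obtain ⟨a, b⟩ := x
  obtain ⟨a, rfl⟩ := QuotientAddGroup.mk_surjective a
  obtain ⟨b, rfl⟩ := QuotientAddGroup.mk_surjective b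
  exact (hT_proj ((a, b), 0)).trans (hh_zero a)

/-- product of the multipliers -/
noncomputable def Pn (n : ℕ) (x : UnitAddCircle × UnitAddCircle) : ℝ :=
  ∏ k ∈ Finset.range n, ccT (AT^[k] x).1

lemma Pn_pos (n : ℕ) (x : UnitAddCircle × UnitAddCircle) : 0 < Pn n x :=
  Finset.prod_pos fun _ _ => ccT_pos _

lemma iter_eu {z : Space} {x : UnitAddCircle × UnitAddCircle} (h : proj z = io x) (n : ℕ) :
    fderiv ℝ (FF^[n]) z eu = φ ^ n • eu := by
  induction n with
  | zero => rw [fderiv_zero]; simp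
  | succ n ih =>
    rw [fderiv_succ, ContinuousLinearMap.comp_apply, ih, map_smul, h, iter_io, hT_io, LL_apply]
    unfold eu
    ext
    · simp only [Prod.smul_mk, smul_eq_mul, mul_one]
      rw [pow_succ, ← φ_sq]
      ring
    · simp [pow_succ]
    · simp

lemma iter_ev {z : Space} {x : UnitAddCircle × UnitAddCircle} (h : proj z = io x) (n : ℕ) :
    fderiv ℝ (FF^[n]) z ev = Pn n x • ev := by
  induction n with
  | zero => rw [fderiv_zero]; simp [Pn]
  | succ n ih =>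
    rw [fderiv_succ, ContinuousLinearMap.comp_apply, ih, map_smul, h, iter_io, hT_io, dT_io,
      LL_apply]
    unfold ev Pn
    rw [Finset.prod_range_succ]
    ext
    · simp
    · simp
    · simp

lemma iter_cu {z : Space} {x : UnitAddCircle × UnitAddCircle} (h : proj z = io x) (n : ℕ) {v : Space}
    (hv : v ∈ Ecu) : fderiv ℝ (FF^[n]) z v = ((φ * (φ ^ n * v.1.2), φ ^ n * v.1.2), Pn n x * v.2) := by
  conv_lhs => rw [eq_comb hv]
  rw [map_add, map_smul, map_smul, iter_eu h, iter_ev h]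
  unfold eu ev
  ext
  · simp; ring
  · simp; ring
  · simp; ring

lemma norm_iter_ge {z : Space} {x : UnitAddCircle × UnitAddCircle} (h : proj z = io x) (n : ℕ)
    {v : Space} (hv : v ∈ Ecu) : φ ^ n * |v.1.2| ≤ ‖fderiv ℝ (FF^[n]) z v‖ := by
  have h1 : ‖(fderiv ℝ (FF^[n]) z v).1.2‖ ≤ ‖fderiv ℝ (FF^[n]) z v‖ :=
    (norm_snd_le _).trans (norm_fst_le _)
  refine le_trans (le_of_eq ?_) h1
  rw [iter_cu h n hv]
  have := lt_φ
  simp only [Real.norm_eq_abs, abs_mul, abs_pow]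
  rw [abs_of_pos (by linarith : 0 < φ)]

lemma norm_iter_le {z : Space} {x : UnitAddCircle × UnitAddCircle} (h : proj z = io x) (n : ℕ)
    {v : Space} (hv : v ∈ Ecu) (hv1 : ‖v‖ = 1) {B : ℝ} (hB : φ ^ n ≤ B) (hB' : Pn n x ≤ B) :
    ‖fderiv ℝ (FF^[n]) z v‖ ≤ 2 * B := by
  rw [iter_cu h n hv]
  have h1 : |v.1.2| ≤ 1 := by
    rw [← hv1, ← Real.norm_eq_abs]; exact (norm_snd_le v.1).trans (norm_fst_le v)
  have h2 : |v.2| ≤ 1 := by
    rw [← hv1, ← Real.norm_eq_abs]; exact norm_snd_le v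
  have h3 := lt_φ
  have h4 := φ_lt
  have h5 : 0 < φ ^ n := by positivity
  have h6 := Pn_pos n x
  have h7 : |φ ^ n * v.1.2| ≤ B := by
    rw [abs_mul, abs_of_pos h5]
    nlinarith [abs_nonneg v.1.2]
  have h8 : |Pn n x * v.2| ≤ B := by
    rw [abs_mul, abs_of_pos h6]
    nlinarith [abs_nonneg v.2]
  have h9 : |φ * (φ ^ n * v.1.2)| ≤ 2 * B := by
    rw [abs_mul, abs_of_pos (by linarith : 0 < φ)]
    nlinarith [abs_nonneg (φ ^ n * v.1.2)]
  have h10 : 0 < B := lt_of_lt_of_le h5 hB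
  rw [Prod.norm_mk, Prod.norm_mk, Real.norm_eq_abs, Real.norm_eq_abs, Real.norm_eq_abs]
  exact max_le (max_le h9 (by linarith)) (by linarith)

lemma exists_unit {E : Submodule ℝ Space} (h : E ≠ ⊥) : ∃ v ∈ E, ‖v‖ = 1 := by
  obtain ⟨v, hv, hv0⟩ := Submodule.exists_mem_ne_zero_of_ne_bot h
  have hn : ‖v‖ ≠ 0 := norm_ne_zero_iff.mpr hv0
  refine ⟨‖v‖⁻¹ • v, Submodule.smul_mem _ _ hv, ?_⟩
  rw [norm_smul, norm_inv, norm_norm, inv_mul_cancel₀ hn]

/-- the good points of the invariant torus -/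
def Gd : Set (UnitAddCircle × UnitAddCircle) := {x | ∀ᶠ n in atTop, Pn n x ≤ 1}

lemma pow_lam {C lam : ℝ} (h0 : 0 < lam) (h1 : lam < 1) {c : ℝ} (hc : 0 < c) :
    ∀ᶠ n : ℕ in atTop, C * lam ^ n < c := by
  have h : Tendsto (fun n : ℕ => C * lam ^ n) atTop (𝓝 (C * 0)) :=
    (tendsto_pow_atTop_nhds_zero_of_lt_one h0.le h1).const_mul C
  rw [mul_zero] at h
  exact h.eventually_lt_const hc

theorem noDominated (hG : Dense Gd) {Λ : Set Torus3} (hΛ : range io ⊆ Λ) :
    ¬ HasDominatedSubsplitting ff FF Λ fun _ => Ecu := by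
  rintro ⟨E₁, E₂, hS, C, lam, hC, hl0, hl1, hD⟩
  have hmem : ∀ x, io x ∈ Λ := fun x => hΛ ⟨x, rfl⟩
  have hφ := lt_φ
  have hφ' := φ_lt
  -- Step 1
  have s1 : ∀ x ∈ Gd, ∀ v ∈ E₁ (io x), v.1.2 = 0 := by
    intro x hx v hv
    by_contra hne
    obtain ⟨z, hz⟩ := proj_surj (io x)
    have hvE : v ∈ Ecu := by
      have := hS.sup (io x) (hmem x)
      rw [← this]
      exact Submodule.mem_sup_left hv
    obtain ⟨w, hw, hw1⟩ := exists_unit (hS.ne_bot_right (io x) (hmem x))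
    have hwE : w ∈ Ecu := by
      have := hS.sup (io x) (hmem x)
      rw [← this]
      exact Submodule.mem_sup_right hw
    have hv0 : v ≠ 0 := fun h => hne (by rw [h]; rfl)
    have hn : 0 < ‖v‖ := norm_pos_iff.mpr hv0
    set v' := ‖v‖⁻¹ • v with hv'
    have hv'1 : ‖v'‖ = 1 := by
      rw [hv', norm_smul, norm_inv, norm_norm, inv_mul_cancel₀ hn.ne']
    have hv'E : v' ∈ E₁ (io x) := Submodule.smul_mem _ _ hv
    have hv'c : v' ∈ Ecu := Submodule.smul_mem _ _ hvE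
    have hv'n : 0 < |v'.1.2| := by
      rw [abs_pos, hv']
      show ‖v‖⁻¹ * v.1.2 ≠ 0
      exact mul_ne_zero (inv_ne_zero hn.ne') hne
    have hev : ∀ᶠ n : ℕ in atTop, (2 * C) * lam ^ n < |v'.1.2| := pow_lam hl0 hl1 hv'n
    obtain ⟨n, hn1, hn2⟩ := (hev.and hx).exists
    have h1 := hD z (by rw [hz]; exact hmem x) n v' (by rw [hz]; exact hv'E) w (by rw [hz]; exact hw)
      hv'1 hw1
    have h2 := norm_iter_ge hz n hv'c
    have hp : 1 ≤ φ ^ n := one_le_pow₀ (by linarith)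
    have h3 := norm_iter_le hz n hwE hw1 (le_refl (φ ^ n)) (hn2.trans hp)
    have h4 : φ ^ n * |v'.1.2| ≤ C * lam ^ n * (2 * φ ^ n) := by
      refine h2.trans (h1.trans ?_)
      gcongr
    have h5 : |v'.1.2| ≤ 2 * C * lam ^ n := by
      have h6 : 0 < φ ^ n := by positivity
      by_contra hcon
      push Not at hcon
      nlinarith
    linarith
  -- Step 2
  have s2 : ∀ v ∈ E₁ (io 0), v.1.2 = 0 := by
    obtain ⟨k, u, hu, hev⟩ := hS.continuous_left (io 0) (hmem 0)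
    have hfr : ∃ᶠ y in 𝓝[Λ] (io 0), y ∈ io '' Gd := by
      have h1 : ∃ᶠ x in 𝓝 (0 : UnitAddCircle × UnitAddCircle), x ∈ Gd :=
        mem_closure_iff_frequently.mp (hG 0)
      have h2 : Tendsto io (𝓝 0) (𝓝[Λ] (io 0)) := by
        apply tendsto_nhdsWithin_of_tendsto_nhds_of_eventually_within
        · have : Continuous io := by unfold io; fun_prop
          exact this.continuousAt
        · exact Eventually.of_forall hmem
      exact h2.frequently (h1.mono fun x hx => ⟨x, hx, rfl⟩)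
    have hz : ∀ i, (u i (io 0)).1.2 = 0 := by
      intro i
      have hc : Tendsto (fun y => (u i y).1.2) (𝓝[Λ] (io 0)) (𝓝 (u i (io 0)).1.2) :=
        ((continuous_snd.comp continuous_fst).tendsto _).comp (hu i)
      have hfr2 : ∃ᶠ y in 𝓝[Λ] (io 0), (u i y).1.2 ∈ ({0} : Set ℝ) := by
        refine (hfr.and_eventually hev).mono ?_
        rintro y ⟨⟨x, hx, rfl⟩, -, h3⟩
        apply s1 x hx
        rw [← h3]
        exact Submodule.subset_span ⟨i, rfl⟩
      exact isClosed_singleton.mem_of_frequently_of_tendsto hfr2 hc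
    have h0 := (hev.self_of_nhdsWithin (hmem 0)).2
    intro v hv
    rw [← h0] at hv
    have hle : Submodule.span ℝ (range fun i => u i (io 0)) ≤
        LinearMap.ker ((LinearMap.snd ℝ ℝ ℝ).comp (LinearMap.fst ℝ (ℝ × ℝ) ℝ)) := by
      rw [Submodule.span_le]
      rintro _ ⟨i, rfl⟩
      exact hz i
    exact hle hv
  -- Step 3
  obtain ⟨v, hv, hv1⟩ := exists_unit (hS.ne_bot_left (io 0) (hmem 0))
  obtain ⟨w, hw, hw1⟩ := exists_unit (hS.ne_bot_right (io 0) (hmem 0))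
  have hsup := hS.sup (io 0) (hmem 0)
  have hvE : v ∈ Ecu := by rw [← hsup]; exact Submodule.mem_sup_left hv
  have hwE : w ∈ Ecu := by rw [← hsup]; exact Submodule.mem_sup_right hw
  have hv2 := s2 v hv
  have hz : proj ((0, 0), 0) = io 0 := rfl
  have hAT : ∀ k, AT^[k] 0 = 0 := fun k => by
    apply iterate_fixed
    unfold AT
    simp
  have hP : ∀ n, Pn n 0 = Real.exp (1 / 2) ^ n := by
    intro n
    unfold Pn
    rw [Finset.prod_congr rfl (fun k _ => by rw [hAT k]), Finset.prod_const, Finset.card_range]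
    congr 1
    exact cc_zero
  have he := lt_exp_half
  have hv3 : |v.2| = 1 := by
    have h1 := eq_comb hvE
    rw [hv2, zero_smul, zero_add] at h1
    rw [h1, norm_smul, Real.norm_eq_abs] at hv1
    have h2 : ‖ev‖ = 1 := by unfold ev; simp
    rwa [h2, mul_one] at hv1
  obtain ⟨n, hn⟩ := (pow_lam (C := 2 * C) hl0 hl1 one_pos).exists
  have h1 := hD ((0, 0), 0) (hmem 0) n v hv w hw hv1 hw1
  have h2 : φ ^ n ≤ Real.exp (1 / 2) ^ n := pow_le_pow_left₀ (by linarith) (by linarith) n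
  have h3 := norm_iter_le hz n hwE hw1 h2 (hP n).le
  have h4 : Real.exp (1 / 2) ^ n ≤ ‖fderiv ℝ (FF^[n]) ((0, 0), 0) v‖ := by
    have h5 : ‖(fderiv ℝ (FF^[n]) ((0, 0), 0) v).2‖ ≤ ‖fderiv ℝ (FF^[n]) ((0, 0), 0) v‖ :=
      norm_snd_le _
    refine le_trans (le_of_eq ?_) h5
    rw [iter_cu hz n hvE, hP, Real.norm_eq_abs, abs_mul, hv3, mul_one,
      abs_of_pos (by positivity)]
  have h6 : Real.exp (1 / 2) ^ n ≤ C * lam ^ n * (2 * Real.exp (1 / 2) ^ n) := by
    refine h4.trans (h1.trans ?_)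
    gcongr
  have h7 : 0 < Real.exp (1 / 2) ^ n := by positivity
  nlinarith

end Pool.Agent.TH292.PH
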