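import Pool.Agent.TH292.PH.Expo

/-!
# The unstable manifolds of the points of the invariant torus
-/

set_option autoImplicit false

open Set Filter Topology MeasureTheory Function
open scoped ContDiff ENNReal Real NNReal

namespace Pool.Agent.TH292.PH

open Pool.Agent.TH292.Gold

/-- point of the unstable line through the origin of the two-torus -/
noncomputable def ul (t : ℝ) : T2 := (((φ * t : ℝ) : UnitAddCircle), (t : UnitAddCircle))

lemma AT_ul (t : ℝ) : AT (ul t) = ul (φ * t) := by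
  unfold AT ul
  ext
  · simp only
    rw [← AddCircle.coe_add]
    congr 1
    linear_combination -t * φ_sq
  · rfl

lemma AI_ul (t : ℝ) : AI (ul t) = ul (φ⁻¹ * t) := by
  have h : AT (ul (φ⁻¹ * t)) = ul t := by
    rw [AT_ul, ← mul_assoc, mul_inv_cancel₀ Real.goldenRatio_ne_zero, one_mul]
  rw [← h, AI_AT]

lemma AT_ul_iter (n : ℕ) (t : ℝ) : AT^[n] (ul t) = ul (φ ^ n * t) := by
  induction n with
  | zero => simp
  | succ n ih => rw [iterate_succ_apply', ih, AT_ul, pow_succ]; congr 1; ring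

lemma AI_ul_iter (n : ℕ) (t : ℝ) : AI^[n] (ul t) = ul (φ⁻¹ ^ n * t) := by
  induction n with
  | zero => simp
  | succ n ih => rw [iterate_succ_apply', ih, AI_ul, pow_succ]; congr 1; ring

lemma AI_add (x y : T2) : AI (x + y) = AI x + AI y := by
  unfold AI
  ext
  · simp
  · simp only [Prod.fst_add, Prod.snd_add]; abel

lemma AI_add_iter (n : ℕ) (x y : T2) : AI^[n] (x + y) = AI^[n] x + AI^[n] y := by
  induction n generalizing x y with
  | zero => rfl
  | succ n ih => rw [iterate_succ_apply, iterate_succ_apply, iterate_succ_apply, AI_add, ih]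

lemma norm_ul_le (t : ℝ) : ‖ul t‖ ≤ 2 * |t| := by
  unfold ul
  rw [Prod.norm_mk]
  have h1 := norm_coe_le (φ * t)
  have h2 := norm_coe_le t
  have h3 := lt_φ
  have h4 := φ_lt
  rw [abs_mul, abs_of_pos (by linarith : 0 < φ)] at h1
  have h5 := abs_nonneg t
  exact max_le (by nlinarith) (by linarith)

lemma eq_of_coe_eq {a b : ℝ} (h : (a : UnitAddCircle) = b) (hab : |b - a| < 1) : a = b := by
  obtain ⟨n, hn⟩ := (coe_eq_iff a b).mp h
  have h1 : |(n : ℝ)| < 1 := by
    rw [hn] at hab
    simpa using hab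
  have h2 : n = 0 := by
    rw [← Int.cast_abs] at h1
    have : |n| < 1 := by exact_mod_cast h1
    exact Int.abs_lt_one_iff.mp this
  rw [hn, h2]
  simp

/-- elements whose backward iterates tend to zero lie on the unstable line -/
lemma exists_ul {d : T2} (hd : Tendsto (fun n => AI^[n] d) atTop (𝓝 0)) : ∃ t, d = ul t := by
  have h1 : ∀ᶠ n in atTop, ‖AI^[n] d‖ < 1 / 8 := by
    have := hd.norm
    rw [norm_zero] at this
    exact this.eventually_lt_const (by norm_num)
  obtain ⟨N, hN⟩ := eventually_atTop.mp h1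
  choose a ha ha' using fun n => exists_lift (AI^[N + n] d).1
  choose b hb hb' using fun n => exists_lift (AI^[N + n] d).2
  have hna : ∀ n, |a n| < 1 / 8 := fun n => by
    rw [ha']; exact lt_of_le_of_lt (norm_fst_le _) (hN _ (by omega))
  have hnb : ∀ n, |b n| < 1 / 8 := fun n => by
    rw [hb']; exact lt_of_le_of_lt (norm_snd_le _) (hN _ (by omega))
  have hstep : ∀ n, AI^[N + (n + 1)] d = AI (AI^[N + n] d) := fun n => by
    rw [← add_assoc, iterate_succ_apply']
  have e1 : ∀ n, a (n + 1) = b n := by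
    intro n
    apply eq_of_coe_eq
    · rw [ha, hb, hstep]
      rfl
    · have := abs_lt.mp (hna (n + 1))
      have := abs_lt.mp (hnb n)
      rw [abs_lt]
      constructor <;> linarith
  have e2 : ∀ n, b (n + 1) = a n - b n := by
    intro n
    apply eq_of_coe_eq
    · rw [AddCircle.coe_sub, hb, hb, ha, hstep]
      rfl
    · have := abs_lt.mp (hna n)
      have := abs_lt.mp (hnb n)
      have := abs_lt.mp (hnb (n + 1))
      rw [abs_lt]
      constructor <;> linarith
  have e3 : ∀ n, a n - φ * b n = (-φ) ^ n * (a 0 - φ * b 0) := by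
    intro n
    induction n with
    | zero => simp
    | succ n ih =>
      rw [e1, e2, pow_succ, mul_assoc, mul_comm (-φ), ← mul_assoc, ← ih]
      linear_combination -(b n) * φ_sq
  have e4 : a 0 - φ * b 0 = 0 := by
    by_contra hne
    have h2 : Tendsto (fun n : ℕ => φ ^ n * |a 0 - φ * b 0|) atTop atTop := by
      apply Tendsto.atTop_mul_const (abs_pos.mpr hne)
      exact tendsto_pow_atTop_atTop_of_one_lt Real.one_lt_goldenRatio
    obtain ⟨n, hn⟩ := (h2.eventually_gt_atTop 1).exists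
    have h3 : φ ^ n * |a 0 - φ * b 0| = |a n - φ * b n| := by
      rw [e3 n, abs_mul, abs_pow, abs_neg, abs_of_pos Real.goldenRatio_pos]
    rw [h3] at hn
    have h4 := abs_lt.mp (hna n)
    have h5 := abs_lt.mp (hnb n)
    have h6 := φ_lt
    have h7 := lt_φ
    have : |a n - φ * b n| ≤ 1 := by
      rw [abs_le]
      constructor <;> nlinarith
    linarith
  have e5 : AI^[N] d = ul (b 0) := by
    have h2 : a 0 = φ * b 0 := by linarith
    unfold ul
    rw [← h2, ha, hb]
    rfl
  refine ⟨φ ^ N * b 0, ?_⟩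
  rw [← AT_ul_iter, ← e5]
  have h : LeftInverse AT AI := AT_AI
  exact (h.iterate N d).symm

/-! ### The fibre direction -/

lemma small_fib : ∃ δ : ℝ, 0 < δ ∧ ∀ x y : ℝ, |y| ≤ δ → |y + gg x y| ≤ cc x * Real.exp (1 / 20) * |y| := by
  have h1 : ∀ᶠ y in 𝓝 (0 : ℝ), |ss' y - 1| < 1 / 40 := by
    have : Tendsto (fun y => |ss' y - 1|) (𝓝 0) (𝓝 |ss' 0 - 1|) :=
      ((ss'_contDiff.continuous.sub continuous_const).abs).tendsto 0
    rw [ss'_zero, sub_self, abs_zero] at this
    exact this.eventually_lt_const (by norm_num)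
  have h2 : ∀ᶠ y in 𝓝 (0 : ℝ), |kk' y| < 1 / 40 := by
    have : Tendsto (fun y => |kk' y|) (𝓝 0) (𝓝 |kk' 0|) := (kk'_contDiff.continuous.abs).tendsto 0
    rw [kk'_zero, abs_zero] at this
    exact this.eventually_lt_const (by norm_num)
  obtain ⟨ε, hε, hε'⟩ := Metric.eventually_nhds_iff.mp (h1.and h2)
  refine ⟨ε / 2, by positivity, fun x y hy => ?_⟩
  have hb : ∀ u ∈ Icc (-(ε / 2)) (ε / 2), ‖dd x u‖ ≤ cc x * Real.exp (1 / 20) := by
    intro u hu
    obtain ⟨h3, h4⟩ := hε' (y := u) (by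
      rw [Real.dist_eq, sub_zero, abs_lt]
      exact ⟨by linarith [hu.1], by linarith [hu.2]⟩)
    have h5 := dd_ge x u
    rw [Real.norm_eq_abs, abs_of_pos (by linarith)]
    have h6 := cc_le x
    have h7 := le_cc x
    have h8 : (1 : ℝ) + 1 / 20 ≤ Real.exp (1 / 20) := by
      have := Real.add_one_le_exp (1 / 20 : ℝ)
      linarith
    rw [abs_lt] at h3 h4
    have h9 : dd x u ≤ cc x + 1 / 40 := by
      unfold dd
      rcases le_total 1 (cc x) with h | h <;> nlinarith
    have h10 : cc x * (1 + 1 / 20) ≤ cc x * Real.exp (1 / 20) :=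
      mul_le_mul_of_nonneg_left h8 (by linarith)
    linarith
  have hy' := abs_le.mp hy
  have h3 := Convex.norm_image_sub_le_of_norm_hasDerivWithin_le (f := fun y => y + gg x y)
    (f' := dd x) (C := cc x * Real.exp (1 / 20)) (s := Icc (-(ε / 2)) (ε / 2)) (x := 0) (y := y)
    (fun u _ => (gg_deriv x u).hasDerivWithinAt) hb (convex_Icc _ _)
    ⟨by linarith, by linarith⟩ ⟨hy'.1, hy'.2⟩
  simp only [gg_zero, add_zero, sub_zero, Real.norm_eq_abs] at h3
  exact h3

lemma small_fibT : ∃ δ : ℝ, 0 < δ ∧ ∀ x c : UnitAddCircle, ‖c‖ ≤ δ →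
    ‖c + (gT x c : UnitAddCircle)‖ ≤ Real.exp (PT x + 1 / 20) * ‖c‖ := by
  obtain ⟨δ, hδ, h⟩ := small_fib
  refine ⟨δ, hδ, fun x c hc => ?_⟩
  obtain ⟨x, rfl⟩ := QuotientAddGroup.mk_surjective x
  obtain ⟨y, rfl, hy⟩ := exists_lift c
  rw [← hy] at hc ⊢
  have h1 : (y : UnitAddCircle) + (gT x y : UnitAddCircle) = ((y + gg x y : ℝ) : UnitAddCircle) := by
    rw [AddCircle.coe_add]
    rfl
  rw [Real.exp_add]
  calc ‖(y : UnitAddCircle) + (gT (QuotientAddGroup.mk x) y : UnitAddCircle)‖
      = ‖((y + gg x y : ℝ) : UnitAddCircle)‖ := by rw [← h1]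
    _ ≤ |y + gg x y| := norm_coe_le _
    _ ≤ cc x * Real.exp (1 / 20) * |y| := h x y hc

lemma gT_zero (x : UnitAddCircle) : gT x 0 = 0 := by
  obtain ⟨x, rfl⟩ := QuotientAddGroup.mk_surjective x
  exact gg_zero x

lemma symm_fst (w : Torus3) : (ff.symm w).1 = AI w.1 := by
  have h : ff (ff.symm w) = w := ff.apply_symm_apply w
  have h1 : (ff (ff.symm w)).1 = AT (ff.symm w).1 := rfl
  rw [h] at h1
  rw [h1, AI_AT]

lemma symm_iter_fst (n : ℕ) (w : Torus3) : (ff.symm^[n] w).1 = AI^[n] w.1 := by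
  induction n with
  | zero => rfl
  | succ n ih => rw [iterate_succ_apply', iterate_succ_apply', symm_fst, ih]

/-- if the fibre coordinates of the backward orbit tend to zero over a typical point, they vanish -/
lemma fibre_zero {w : Torus3}
    (hw : Tendsto (fun n : ℕ => (n : ℝ)⁻¹ * ∑ k ∈ Finset.range n, PT (AI^[k] w.1).1) atTop
      (𝓝 (-(1 / 10))))
    (hc : Tendsto (fun n : ℕ => ‖(ff.symm^[n] w).2‖) atTop (𝓝 0)) : w.2 = 0 := by
  obtain ⟨δ, hδ, hfib⟩ := small_fibT
  obtain ⟨N, hN⟩ := eventually_atTop.mp (hc.eventually_le_const hδ)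
  have hstep : ∀ n, (ff.symm^[n] w).2 = (ff.symm^[n + 1] w).2 +
      (gT (ff.symm^[n + 1] w).1.1 (ff.symm^[n + 1] w).2 : UnitAddCircle) := by
    intro n
    have h : ff (ff.symm^[n + 1] w) = ff.symm^[n] w := by
      rw [iterate_succ_apply', ff.apply_symm_apply]
    conv_lhs => rw [← h]
    rfl
  -- the sum of the logarithms
  set S : ℕ → ℝ := fun n => ∑ k ∈ Finset.range n, (PT (AI^[k] w.1).1 + 1 / 20) with hS
  have hSlim : Tendsto S atTop atBot := by
    have h1 : ∀ᶠ n : ℕ in atTop, (n : ℝ)⁻¹ * ∑ k ∈ Finset.range n, PT (AI^[k] w.1).1 < -(3 / 40) :=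
      hw.eventually_lt_const (by norm_num)
    have h2 : ∀ᶠ n : ℕ in atTop, S n ≤ -(1 / 40) * (n : ℝ) := by
      filter_upwards [h1, eventually_gt_atTop 0] with n hn hn0
      have hn1 : (0 : ℝ) < n := by exact_mod_cast hn0
      rw [inv_mul_lt_iff₀ hn1] at hn
      show ∑ k ∈ Finset.range n, (PT (AI^[k] w.1).1 + 1 / 20) ≤ _
      rw [Finset.sum_add_distrib, Finset.sum_const, Finset.card_range, nsmul_eq_mul]
      linarith
    apply tendsto_atBot_mono' _ h2
    exact (tendsto_natCast_atTop_atTop).const_mul_atTop_of_neg (by norm_num)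
  have hprod : ∀ n, N ≤ n → ‖(ff.symm^[N] w).2‖ ≤
      Real.exp (S (n + 1) - S (N + 1)) * ‖(ff.symm^[n] w).2‖ := by
    intro n hn
    induction n, hn using Nat.le_induction with
    | base => simp
    | succ n hn ih =>
      have h1 := hfib (ff.symm^[n + 1] w).1.1 (ff.symm^[n + 1] w).2 (hN _ (by omega))
      rw [← hstep] at h1
      have h2 : S (n + 1 + 1) = S (n + 1) + (PT (ff.symm^[n + 1] w).1.1 + 1 / 20) := by
        show ∑ k ∈ Finset.range (n + 1 + 1), _ = _
        rw [Finset.sum_range_succ, symm_iter_fst]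
      calc ‖(ff.symm^[N] w).2‖ ≤ Real.exp (S (n + 1) - S (N + 1)) * ‖(ff.symm^[n] w).2‖ := ih
        _ ≤ Real.exp (S (n + 1) - S (N + 1)) * (Real.exp (PT (ff.symm^[n + 1] w).1.1 + 1 / 20) *
            ‖(ff.symm^[n + 1] w).2‖) := by gcongr
        _ = _ := by
          rw [← mul_assoc, ← Real.exp_add, h2]
          congr 2
          ring
  have hz : ‖(ff.symm^[N] w).2‖ ≤ 0 := by
    have h1 : Tendsto (fun n => Real.exp (S (n + 1) - S (N + 1)) * ‖(ff.symm^[n] w).2‖) atTop (𝓝 (0 * 0)) := by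
      apply Tendsto.mul _ hc
      apply Real.tendsto_exp_atBot.comp
      exact tendsto_atBot_add_const_right _ _ (hSlim.comp (tendsto_add_atTop_nat 1))
    rw [zero_mul] at h1
    apply ge_of_tendsto h1
    filter_upwards [eventually_ge_atTop N] with n hn
    exact hprod n hn
  have hz' : (ff.symm^[N] w).2 = 0 := norm_le_zero_iff.mp hz
  have hdown : ∀ k, k ≤ N → (ff.symm^[N - k] w).2 = 0 := by
    intro k
    induction k with
    | zero => intro _; simpa using hz'
    | succ k ih =>
      intro hk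
      have h1 := hstep (N - (k + 1))
      have h2 : N - (k + 1) + 1 = N - k := by omega
      rw [h2, ih (by omega), gT_zero] at h1
      rw [h1]
      simp
  have := hdown N le_rfl
  simpa using this

/-- the curve -/
noncomputable def gam (a b : ℝ) (t : ℝ) : Space := ((a + φ * t, b + t), 0)

lemma proj_gam (a b t : ℝ) : proj (gam a b t) = io (((a : UnitAddCircle), (b : UnitAddCircle)) + ul t) := by
  unfold gam ul io proj
  ext
  · simp
  · simp
  · simp

theorem unstable_eq {a b : ℝ} (hx : Tendsto (fun n : ℕ => (n : ℝ)⁻¹ *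
    ∑ k ∈ Finset.range n, PT (AI^[k] ((a : UnitAddCircle), (b : UnitAddCircle))).1) atTop (𝓝 (-(1 / 10)))) :
    range (fun t => proj (gam a b t)) = unstableSet ff (io ((a : UnitAddCircle), (b : UnitAddCircle))) := by
  set x : T2 := ((a : UnitAddCircle), (b : UnitAddCircle)) with hxdef
  apply subset_antisymm
  · rintro _ ⟨t, rfl⟩
    refine ⟨2 * |t|, φ⁻¹, inv_pos.mpr Real.goldenRatio_pos,
      inv_lt_one_of_one_lt₀ Real.one_lt_goldenRatio, fun n => ?_⟩
    show dist (ff.symm^[n] (io x)) (ff.symm^[n] (proj (gam a b t))) ≤ _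
    rw [proj_gam, iter_symm_io, iter_symm_io, AI_add_iter, AI_ul_iter]
    unfold io
    rw [Prod.dist_eq, dist_self, max_eq_left dist_nonneg, dist_self_add_right]
    refine (norm_ul_le _).trans ?_
    rw [abs_mul, abs_pow, abs_of_pos (inv_pos.mpr Real.goldenRatio_pos)]
    apply le_of_eq
    ring
  · rintro w ⟨C, θ, hθ0, hθ1, hw⟩
    have hlim : Tendsto (fun n : ℕ => C * θ ^ n) atTop (𝓝 0) := by
      have := (tendsto_pow_atTop_nhds_zero_of_lt_one hθ0.le hθ1).const_mul C
      rwa [mul_zero] at this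
    have hb : ∀ n, dist (AI^[n] x) (AI^[n] w.1) ≤ C * θ ^ n := fun n => by
      have h1 := hw n
      rw [iter_symm_io, Prod.dist_eq, symm_iter_fst] at h1
      exact (le_max_left _ _).trans h1
    have hf : ∀ n, ‖(ff.symm^[n] w).2‖ ≤ C * θ ^ n := fun n => by
      have h1 := hw n
      rw [iter_symm_io, Prod.dist_eq] at h1
      have h2 := (le_max_right _ _).trans h1
      have h3 : dist (io (AI^[n] x)).2 (ff.symm^[n] w).2 = ‖(ff.symm^[n] w).2‖ := by
        show dist (0 : UnitAddCircle) _ = _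
        rw [dist_zero_left]
      rwa [h3] at h2
    have hf' : Tendsto (fun n : ℕ => ‖(ff.symm^[n] w).2‖) atTop (𝓝 0) :=
      squeeze_zero (fun _ => norm_nonneg _) hf hlim
    have hb' : Tendsto (fun n : ℕ => dist (AI^[n] x) (AI^[n] w.1)) atTop (𝓝 0) :=
      squeeze_zero (fun _ => dist_nonneg) hb hlim
    -- the base
    obtain ⟨t, ht⟩ : ∃ t, w.1 - x = ul t := by
      apply exists_ul
      rw [tendsto_zero_iff_norm_tendsto_zero]
      refine hb'.congr fun n => ?_
      have h1 : AI^[n] w.1 = AI^[n] x + AI^[n] (w.1 - x) := by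
        rw [← AI_add_iter]
        congr 1
        abel
      rw [h1, dist_self_add_right]
    -- the average along the backward orbit of `w`
    have hav : Tendsto (fun n : ℕ => (n : ℝ)⁻¹ * ∑ k ∈ Finset.range n, PT (AI^[k] w.1).1) atTop
        (𝓝 (-(1 / 10))) := by
      have huc : UniformContinuous PT := CompactSpace.uniformContinuous_of_continuous PT_cont
      have h1 : Tendsto (fun n : ℕ => dist (PT (AI^[n] x).1) (PT (AI^[n] w.1).1)) atTop (𝓝 0) := by
        rw [Metric.tendsto_atTop]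
        intro ε hε
        obtain ⟨δ, hδ, h2⟩ := Metric.uniformContinuous_iff.mp huc ε hε
        obtain ⟨N, hN⟩ := eventually_atTop.mp (hb'.eventually_lt_const hδ)
        refine ⟨N, fun n hn => ?_⟩
        have h3 := hN n hn
        have h4 : dist (AI^[n] x).1 (AI^[n] w.1).1 < δ := by
          rw [Prod.dist_eq] at h3
          exact lt_of_le_of_lt (le_max_left _ _) h3
        rw [Real.dist_eq, sub_zero, abs_of_nonneg dist_nonneg]
        exact h2 h4
      have h2 : Tendsto (fun n : ℕ => PT (AI^[n] w.1).1 - PT (AI^[n] x).1) atTop (𝓝 0) := by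
        rw [tendsto_zero_iff_norm_tendsto_zero]
        refine h1.congr fun n => ?_
        rw [dist_comm, Real.dist_eq, Real.norm_eq_abs]
      have h3 := h2.cesaro
      have h4 := hx.add h3
      rw [add_zero] at h4
      refine h4.congr fun n => ?_
      rw [← mul_add, ← Finset.sum_add_distrib]
      congr 1
      apply Finset.sum_congr rfl
      intro k _
      ring
    have hw0 := fibre_zero hav hf'
    refine ⟨t, ?_⟩
    show proj (gam a b t) = w
    rw [proj_gam]
    have h1 : w.1 = x + ul t := by rw [← ht]; abel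
    exact Prod.ext h1.symm hw0.symm

end Pool.Agent.TH292.PH
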